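import Mathlib

/-!
Comparison of numbers by binary digits; the least good index.

PLAN. `le_bits`: the two numbers differ at a highest digit `i < L`, or they are equal
(`Nat.eq_of_testBit_eq`, `Nat.lt_of_testBit`, `Nat.testBit_lt_two_pow`). `bst_spec`: by `Nat.find`; the
filtered list is `List.range` of the least good index.
-/

set_option autoImplicit false

namespace Pool.Agent.Lib.Pf91712c

namespace BitsAux

theorem big {a L j : ℕ} (ha : a < 2 ^ L) (hj : L ≤ j) : a.testBit j = false :=
  Nat.testBit_lt_two_pow (lt_of_lt_of_le ha (Nat.pow_le_pow_right (by norm_num) hj))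

theorem ex_top (a b L : ℕ) (ha : a < 2 ^ L) (hb : b < 2 ^ L) (hne : a ≠ b) :
    ∃ m < L, a.testBit m ≠ b.testBit m ∧ ∀ j, m < j → a.testBit j = b.testBit j := by
  have hex : ((Finset.range L).filter fun i => a.testBit i ≠ b.testBit i).Nonempty := by
    by_contra hem
    rw [Finset.not_nonempty_iff_eq_empty, Finset.filter_eq_empty_iff] at hem
    apply hne
    apply Nat.eq_of_testBit_eq
    intro i
    by_cases hi : i < L
    · have h1 := hem (Finset.mem_range.2 hi)
      push Not at h1
      exact h1
    · rw [big ha (by omega), big hb (by omega)]
  obtain ⟨m, hm, hmax⟩ := Finset.exists_max_image _ id hex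
  rw [Finset.mem_filter, Finset.mem_range] at hm
  refine ⟨m, hm.1, hm.2, ?_⟩
  intro j hj
  by_cases hjL : j < L
  · by_contra hc
    have h1 := hmax j (Finset.mem_filter.2 ⟨Finset.mem_range.2 hjL, hc⟩)
    simp only [id] at h1
    omega
  · rw [big ha (by omega), big hb (by omega)]

end BitsAux

open BitsAux

theorem le_bits (a b L : ℕ) (ha : a < 2 ^ L) (hb : b < 2 ^ L) :
    a ≤ b ↔ ∀ i < L, a.testBit i = true → b.testBit i = false →
      ∃ j < L, i < j ∧ a.testBit j = false ∧ b.testBit j = true := by
  constructor
  · intro hab i hi h1 h2
    have hne : a ≠ b := by
      rintro rfl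
      rw [h1] at h2
      cases h2
    obtain ⟨m, hm, hd, hup⟩ := ex_top a b L ha hb hne
    have him : i ≤ m := by
      by_contra hc
      have h3 := hup i (by omega)
      rw [h1, h2] at h3
      cases h3
    cases hbm : b.testBit m with
    | false =>
      have ham : a.testBit m = true := by
        cases ham : a.testBit m with
        | true => rfl
        | false => exact absurd (ham.trans hbm.symm) hd
      have := Nat.lt_of_testBit m hbm ham (fun j hj => (hup j hj).symm)
      omega
    | true =>
      have ham : a.testBit m = false := by
        cases ham : a.testBit m with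
        | false => rfl
        | true => exact absurd (ham.trans hbm.symm) hd
      refine ⟨m, hm, ?_, ham, hbm⟩
      rcases Nat.lt_or_ge i m with h | h
      · exact h
      · have : i = m := by omega
        subst this
        rw [h1] at ham
        cases ham
  · intro h
    by_contra hc
    push Not at hc
    obtain ⟨m, hm, hd, hup⟩ := ex_top a b L ha hb (by omega)
    cases hbm : b.testBit m with
    | false =>
      have ham : a.testBit m = true := by
        cases ham : a.testBit m with
        | true => rfl
        | false => exact absurd (ham.trans hbm.symm) hd
      obtain ⟨j, _, hj2, hj3, hj4⟩ := h m hm ham hbm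
      have h5 := hup j hj2
      rw [hj3, hj4] at h5
      cases h5
    | true =>
      have ham : a.testBit m = false := by
        cases ham : a.testBit m with
        | false => rfl
        | true => exact absurd (ham.trans hbm.symm) hd
      have := Nat.lt_of_testBit m ham hbm hup
      omega

theorem pos_bits (a L : ℕ) (ha : a < 2 ^ L) : 1 ≤ a ↔ ∃ i < L, a.testBit i = true := by
  constructor
  · intro h
    obtain ⟨m, hm, hd, -⟩ := ex_top a 0 L ha (by positivity) (by omega)
    refine ⟨m, hm, ?_⟩
    rw [Nat.zero_testBit] at hd
    cases hb : a.testBit m with
    | true => rfl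
    | false => exact absurd hb hd
  · rintro ⟨i, -, hi⟩
    rcases Nat.eq_zero_or_pos a with h | h
    · rw [h, Nat.zero_testBit] at hi
      cases hi
    · exact h

/-- the least index with the property `good` -/
def bst (N : ℕ) (good : ℕ → Bool) : ℕ :=
  ((List.range N).filter (fun v => decide (∀ v' < v + 1, (!good v') = true))).length

theorem bst_spec (N : ℕ) (good : ℕ → Bool) (h : ∃ v < N, good v = true) :
    bst N good < N ∧ good (bst N good) = true := by
  classical
  have hf := Nat.find_spec h
  have hmin : ∀ v < Nat.find h, good v = false := by
    intro v hv
    have h1 := Nat.find_min h hv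
    cases hg : good v with
    | false => rfl
    | true => exact absurd ⟨by omega, hg⟩ h1
  have e : bst N good = Nat.find h := by
    unfold bst
    generalize Nat.find h = m at hf hmin
    have e1 : List.range N = List.range m ++ (List.range (N - m)).map (m + ·) := by
      rw [← List.range_add]
      congr 1
      omega
    rw [e1, List.filter_append, List.length_append]
    have e2 : (List.range m).filter (fun v => decide (∀ v' < v + 1, (!good v') = true)) =
        List.range m := by
      rw [List.filter_eq_self]
      intro v hv
      rw [List.mem_range] at hv
      rw [decide_eq_true_eq]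
      intro v' hv'
      rw [hmin v' (by omega)]
      rfl
    have e3 : ((List.range (N - m)).map (m + ·)).filter
        (fun v => decide (∀ v' < v + 1, (!good v') = true)) = [] := by
      rw [List.filter_eq_nil_iff]
      intro v hv hc
      rw [List.mem_map] at hv
      obtain ⟨x, -, rfl⟩ := hv
      rw [decide_eq_true_eq] at hc
      have h2 := hc m (by omega)
      rw [hf.2] at h2
      cases h2
    rw [e2, e3, List.length_range]
    rfl
  rw [e]
  exact ⟨hf.1, hf.2⟩

end Pool.Agent.Lib.Pf91712c
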