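import Pool.Agent.Lib.Pf91712q.Defs
import Pool.Agent.Lib.Pa76659G.Pair

/-!
Clique dominating sets, weighted satisfiability of formulas in conjunctive normal form, and the
functions of the algorithm.
-/

set_option autoImplicit false

namespace Pool.Agent.Lib.Pf91712c

open Pool.Agent.Lib.Pa76659 (Str Lang)
open Pool.Agent.Lib.Pa76659G (pr on1 fst snd emp FPO)
open Pool.Agent.Lib.Pa76659G.PC (una lenc nth llen)

/-! ### Counting weighted satisfying assignments -/

/-- the entries of a coded list -/
def lst (w : Str) : List Str := (List.range (llen w)).map (nth w)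

/-- The literal `w` is true under the assignment which makes exactly the variables in `S` true: the
first bit of `w` is the sign, the number of the other bits is the index of the variable. -/
def litT (S : Finset ℕ) (w : Str) : Prop :=
  if w.headD false = true then w.tail.length ∈ S else w.tail.length ∉ S

/-- The number of the satisfying assignments of weight `k` of the formula in conjunctive normal form
`φ = pr (1^n) cs`: the variables are `0, ..., n - 1`, the clauses are the entries of `cs`, a clause is a
coded list of literals. -/
noncomputable def wsat (φ : Str) (k : ℕ) : ℕ :=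
  Nat.card {S : Finset ℕ // S ⊆ Finset.range (fst φ).length ∧ S.card = k ∧
    ∀ C ∈ lst (snd φ), ∃ l ∈ lst C, litT S l}

/-- The functions which are fpt parsimoniously reducible to counting the satisfying assignments of
weight `k` of formulas in conjunctive normal form (circuits of weft `2` and depth `2`), a subclass of
`#W[2]`. The formula is computed in polynomial time from `x` and a computable advice `π k`. -/
def SharpW2 : Set (Str → ℕ → ℕ) :=
  {F | ∃ (κ : ℕ → ℕ) (π : ℕ → Str) (R : Str → Str), Computable κ ∧ Computable π ∧ R ∈ FPO emp ∧
    ∀ x k, F x k = wsat (R (pr x (π k))) (κ k)}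

/-! ### Clique dominating sets -/

/-- the number of the vertices of the graph `x` -/
def nv (x : Str) : ℕ := Nat.sqrt x.length + 1

/-- the edges of the graph `x`: the adjacency matrix is read from the bits of `x` -/
def adj (x : Str) (u v : ℕ) : Bool :=
  !decide (u = v) && (x.getD (u * nv x + v) false || x.getD (v * nv x + u) false)

/-- Some set of at most `k` vertices of the graph `x` dominates every clique with `l` vertices: it
contains a vertex which belongs to the clique or is adjacent to a vertex of the clique. -/
def CDS (x : Str) (k l : ℕ) : Prop :=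
  ∃ S : Finset (Fin (nv x)), S.card ≤ k ∧ ∀ C : Finset (Fin (nv x)), C.card = l →
    (∀ u ∈ C, ∀ v ∈ C, u ≠ v → adj x u v = true) →
    ∃ u ∈ S, ∃ v ∈ C, u = v ∨ adj x u v = true

/-! ### Tuples and tests -/

/-- the lists of length `n` with entries less than `N` -/
def tup (n N : ℕ) : Finset (List ℕ) :=
  (Fintype.piFinset fun _ : Fin n => Finset.range N).image List.ofFn

def dom (x : Str) (u v : ℕ) : Bool := decide (u = v) || adj x u v

/-- `y` is a clique (its entries are pairwise adjacent) -/
def clq (x : Str) (y : List ℕ) : Bool :=
  decide (∀ b < y.length, ∀ b' < y.length, b ≠ b' → adj x (y.getD b 0) (y.getD b' 0) = true)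

/-- `y` is a clique which is not dominated by `u` -/
def kil (x : Str) (u y : List ℕ) : Bool :=
  clq x y && decide (∀ a < u.length, ∀ b < y.length, dom x (u.getD a 0) (y.getD b 0) = false)

section

variable (K : List ℕ → List ℕ → Bool) (l N kk t : ℕ)

/-- `u` is not killed by the complete tests in `z` (blocks of `l` numbers) -/
def inYN (z u : List ℕ) : Bool := decide (∀ i < z.length / l, K u ((z.drop (i * l)).take l) = false)

/-- the incomplete last test in `z` -/
def lastN (z : List ℕ) : List ℕ := z.drop (z.length / l * l)

/-- the number of the tuples which survive the tests in `z` and are killed by `y` -/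
def cN (z y : List ℕ) : ℕ :=
  ((tup kk N).filter (fun u => inYN K l z u = true ∧ K u y = true)).card

/-- the sum of the `t`-th powers of `cN` over the tests with the given beginning `p` -/
def SSN (z p : List ℕ) : ℕ :=
  ∑ y ∈ tup l N, if y.take p.length = p then cN K l N kk z y ^ t else 0

end

/-! ### The formula -/

/-- compatibility of the value `v0` in the block `β0` and the value `v1` in the block `β1` -/
def compat (x : Str) (l β0 v0 β1 v1 : ℕ) : Bool :=
  (!(decide (β0 < l) && decide (β1 < l) && !decide (β0 = β1)) || adj x v0 v1) &&
  (!(decide (l ≤ β0) && decide (β1 < l)) || !dom x v0 v1)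

/-- the conditions on the set `S` of the true variables; there are `l + t * kk` blocks of `N`
variables, `z` is the list of the tests -/
def Sat (x : Str) (kk l t : ℕ) (md : Bool) (z : List ℕ) (S : Finset ℕ) : Prop :=
  (∀ β < l + t * kk, ∃ m ∈ S, m / nv x = β ∧
    (md = false → β < (lastN l z).length → m % nv x = (lastN l z).getD β 0)) ∧
  (md = false → ∀ m0 ∈ S, ∀ β1 < l + t * kk, ∃ m1 ∈ S, m1 / nv x = β1 ∧
    compat x l (m0 / nv x) (m0 % nv x) β1 (m1 % nv x) = true) ∧
  ∀ i < z.length / l, clq x ((z.drop (i * l)).take l) = true → ∀ j < t,
    ∃ m ∈ S, l + j * kk ≤ m / nv x ∧ m / nv x < l + (j + 1) * kk ∧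
      ∃ b < l, dom x (m % nv x) (((z.drop (i * l)).take l).getD b 0) = true

/-- the code of the list of the tests -/
def ze (z : List ℕ) : Str := lenc (z.map una)

end Pool.Agent.Lib.Pf91712c
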