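import Pool.Agent.Lib.Pa76659G.UoFP
import Pool.Agent.Lib.Pf91712q.Mat
import Pool.Agent.Lib.Pf91712c.Defs

/-!
The formula as a string; it is computable in polynomial time.
-/

set_option autoImplicit false

namespace Pool.Agent.Lib.Pf91712c

open Pool.Agent.Lib.Pa76659 (Str Lang)
open Pool.Agent.Lib.Pa76659G (pr on1 fst snd emp FPO)
open Pool.Agent.Lib.Pa76659G.PC
open Pool.Agent.Lib.Pf91712q (up upN idx div_poly)

/-! ### Definitions -/

/-- the entry `i` of a coded list of numbers -/
def ent (zs : Str) (i : ℕ) : ℕ := (nth zs i).length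

/-- the entries `off, ..., off + l - 1` are pairwise adjacent -/
def clqS (x zs : Str) (l off : ℕ) : Bool :=
  decide (∀ b < l, decide (∀ b' < l, (decide (b = b') || adj x (ent zs (off + b)) (ent zs (off + b')))
    = true) = true)

/-- one of the entries `off, ..., off + l - 1` is dominated by `v` -/
def exdS (x zs : Str) (l off v : ℕ) : Bool := decide (∃ b < l, dom x v (ent zs (off + b)) = true)

def posA (x zs : Str) (l : ℕ) (md : Bool) (β m : ℕ) : Bool :=
  decide (m / nv x = β) && (md || (!decide (llen zs / l * l + β < llen zs) ||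
    decide (m % nv x = ent zs (llen zs / l * l + β))))

def posB (x : Str) (l B i m : ℕ) : Bool :=
  decide (m / nv x = i % B) && compat x l ((i / B) / nv x) ((i / B) % nv x) (i % B) (m % nv x)

def posC (x zs : Str) (kk l t i m : ℕ) : Bool :=
  !clqS x zs l (i / t * l) || (decide (l + (i % t) * kk ≤ m / nv x) &&
    (decide (m / nv x < l + (i % t + 1) * kk) && exdS x zs l (i / t * l) (m % nv x)))

/-- the code of the clause with the positive literals `pos` and the negative literals `neg` -/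
def clause (n : ℕ) (pos neg : ℕ → Bool) : Str :=
  (List.range n).flatMap (fun m => (if pos m then pr (true :: una m) [] else []) ++
    (if neg m then pr (false :: una m) [] else []))

/-- the number of the blocks -/
def nB (kk l t : ℕ) : ℕ := l + t * kk

/-- the code of the list of the clauses -/
def clauses (x zs : Str) (kk l t : ℕ) (md : Bool) : Str :=
  lenc ((List.range (nB kk l t)).map (fun β =>
    clause (nB kk l t * nv x) (posA x zs l md β) (fun _ => false))) ++
  ((if md then [] else lenc ((List.range (nB kk l t * nv x * nB kk l t)).map (fun i =>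
    clause (nB kk l t * nv x) (posB x l (nB kk l t) i) (fun m => decide (m = i / nB kk l t))))) ++
  lenc ((List.range (llen zs / l * t)).map (fun i =>
    clause (nB kk l t * nv x) (posC x zs kk l t i) (fun _ => !clqS x zs l (i / t * l)))))

/-- the formula -/
def cnf (x zs : Str) (kk l t : ℕ) (md : Bool) : Str :=
  pr (una (nB kk l t * nv x)) (clauses x zs kk l t md)

/-! ### Computability -/

section

variable {α : Type*} {orc : α → Lang} {D : α → Prop} {ctx : List (α → Str)}

theorem mod_poly {f d : α → ℕ} (hf : PolyN orc D ctx f) (hd : PolyN orc D ctx d)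
    (hd1 : ∀ a, D a → 1 ≤ d a) : PolyN orc D ctx (fun a => f a % d a) :=
  (hf.sub (hd.mul (div_poly hf hd hd1))).congr (fun a _ => by
    have := Nat.div_add_mod (f a) (d a)
    omega)

theorem nv_poly {x : α → Str} (hx : PolyC orc D ctx x) : PolyN orc D ctx (fun a => nv (x a)) := by
  have h1 := PolyN.count (n := fun a => (x a).length)
    (φ := fun p : α × ℕ => decide ((p.2 + 1) * (p.2 + 1) ≤ (x p.1).length)) (PolyN.length hx)
    (PolyB.le ((PolyN.succ (PolyC.var (by simp))).mul (PolyN.succ (PolyC.var (by simp))))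
      (upN (n := fun a => (x a).length) (PolyN.length hx)))
  refine (PolyN.succ h1).congr (fun a _ => ?_)
  rw [nv, ← Pool.Agent.Lib.Pf91712q.filter_lt (Nat.sqrt (x a).length) (x a).length
    (Nat.sqrt_le_self _)]
  congr 2
  refine List.filter_congr (fun i _ => ?_)
  rw [Bool.eq_iff_iff, decide_eq_true_eq, decide_eq_true_eq]
  show (i + 1) * (i + 1) ≤ (x a).length ↔ i < Nat.sqrt (x a).length
  rw [Nat.lt_iff_add_one_le, Nat.le_sqrt]

theorem adj_poly {x : α → Str} {u v : α → ℕ} (hx : PolyC orc D ctx x) (hu : PolyN orc D ctx u)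
    (hv : PolyN orc D ctx v) : PolyB orc D ctx (fun a => adj (x a) (u a) (v a)) :=
  (PolyB.natEq hu hv).not.and ((PolyB.getD hx ((hu.mul (nv_poly hx)).add hv)).or
    (PolyB.getD hx ((hv.mul (nv_poly hx)).add hu)))

theorem dom_poly {x : α → Str} {u v : α → ℕ} (hx : PolyC orc D ctx x) (hu : PolyN orc D ctx u)
    (hv : PolyN orc D ctx v) : PolyB orc D ctx (fun a => dom (x a) (u a) (v a)) :=
  (PolyB.natEq hu hv).or (adj_poly hx hu hv)

theorem ent_poly {zs : α → Str} {i : α → ℕ} (hz : PolyC orc D ctx zs) (hi : PolyN orc D ctx i) :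
    PolyN orc D ctx (fun a => ent (zs a) (i a)) := PolyN.length (PolyC.nth hz hi)

theorem clqS_poly {x zs : α → Str} {l off : α → ℕ} (hx : PolyC orc D ctx x)
    (hz : PolyC orc D ctx zs) (hl : PolyN orc D ctx l) (ho : PolyN orc D ctx off) :
    PolyB orc D ctx (fun a => clqS (x a) (zs a) (l a) (off a)) := by
  refine PolyB.forall_lt (φ := fun p : α × ℕ => decide (∀ b' < l p.1, (decide (p.2 = b') ||
    adj (x p.1) (ent (zs p.1) (off p.1 + p.2)) (ent (zs p.1) (off p.1 + b'))) = true)) hl ?_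
  have hx1 := up (n := l) hx
  have hz1 := up (n := l) hz
  have hl1 := upN (n := l) hl
  have ho1 := upN (n := l) ho
  have hb1 := idx (orc := orc) (D := D) (ctx := ctx) (n := l)
  refine PolyB.forall_lt (φ := fun p : (α × ℕ) × ℕ => decide (p.1.2 = p.2) ||
    adj (x p.1.1) (ent (zs p.1.1) (off p.1.1 + p.1.2)) (ent (zs p.1.1) (off p.1.1 + p.2))) hl1 ?_
  have hx2 := up (n := fun p : α × ℕ => l p.1) hx1
  have hz2 := up (n := fun p : α × ℕ => l p.1) hz1
  have ho2 := upN (n := fun p : α × ℕ => l p.1) ho1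
  have hb2 := upN (n := fun p : α × ℕ => l p.1) hb1
  have hb3 := idx (orc := fun p : α × ℕ => orc p.1) (D := fun p : α × ℕ => D p.1 ∧ p.2 < l p.1)
    (ctx := lift ctx ++ [fun p => una p.2]) (n := fun p : α × ℕ => l p.1)
  exact (PolyB.natEq hb2 hb3).or (adj_poly hx2 (ent_poly hz2 (ho2.add hb2))
    (ent_poly hz2 (ho2.add hb3)))

theorem exdS_poly {x zs : α → Str} {l off v : α → ℕ} (hx : PolyC orc D ctx x)
    (hz : PolyC orc D ctx zs) (hl : PolyN orc D ctx l) (ho : PolyN orc D ctx off)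
    (hv : PolyN orc D ctx v) :
    PolyB orc D ctx (fun a => exdS (x a) (zs a) (l a) (off a) (v a)) := by
  refine PolyB.exists_lt (φ := fun p : α × ℕ => dom (x p.1) (v p.1)
    (ent (zs p.1) (off p.1 + p.2))) hl ?_
  have hb1 := idx (orc := orc) (D := D) (ctx := ctx) (n := l)
  exact dom_poly (up (n := l) hx) (upN (n := l) hv)
    (ent_poly (up (n := l) hz) ((upN (n := l) ho).add hb1))

theorem compat_poly {x : α → Str} {l b0 v0 b1 v1 : α → ℕ} (hx : PolyC orc D ctx x)
    (hl : PolyN orc D ctx l) (hb0 : PolyN orc D ctx b0) (hv0 : PolyN orc D ctx v0)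
    (hb1 : PolyN orc D ctx b1) (hv1 : PolyN orc D ctx v1) :
    PolyB orc D ctx (fun a => compat (x a) (l a) (b0 a) (v0 a) (b1 a) (v1 a)) :=
  ((((PolyB.lt hb0 hl).and (PolyB.lt hb1 hl)).and (PolyB.natEq hb0 hb1).not).not.or
    (adj_poly hx hv0 hv1)).and
  (((PolyB.le hl hb0).and (PolyB.lt hb1 hl)).not.or (dom_poly hx hv0 hv1).not)

theorem posA_poly {x zs : α → Str} {l b m : α → ℕ} {md : α → Bool} (hx : PolyC orc D ctx x)
    (hz : PolyC orc D ctx zs) (hl : PolyN orc D ctx l) (hl1 : ∀ a, D a → 1 ≤ l a)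
    (hmd : PolyB orc D ctx md) (hb : PolyN orc D ctx b) (hm : PolyN orc D ctx m) :
    PolyB orc D ctx (fun a => posA (x a) (zs a) (l a) (md a) (b a) (m a)) := by
  have hN := nv_poly hx
  have hq := ((div_poly (PolyN.llen hz) hl hl1).mul hl).add hb
  exact (PolyB.natEq (div_poly hm hN (fun a _ => Nat.succ_pos _)) hb).and
    (hmd.or ((PolyB.lt hq (PolyN.llen hz)).not.or
      (PolyB.natEq (mod_poly hm hN (fun a _ => Nat.succ_pos _)) (ent_poly hz hq))))

theorem posB_poly {x : α → Str} {l B i m : α → ℕ} (hx : PolyC orc D ctx x)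
    (hl : PolyN orc D ctx l) (hB : PolyN orc D ctx B) (hB1 : ∀ a, D a → 1 ≤ B a)
    (hi : PolyN orc D ctx i) (hm : PolyN orc D ctx m) :
    PolyB orc D ctx (fun a => posB (x a) (l a) (B a) (i a) (m a)) := by
  have hN := nv_poly hx
  have h1 : ∀ a, D a → 1 ≤ nv (x a) := fun a _ => Nat.succ_pos _
  have hd := div_poly hi hB hB1
  have hr := mod_poly hi hB hB1
  exact (PolyB.natEq (div_poly hm hN h1) hr).and
    (compat_poly hx hl (div_poly hd hN h1) (mod_poly hd hN h1) hr (mod_poly hm hN h1))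

theorem posC_poly {x zs : α → Str} {kk l t i m : α → ℕ} (hx : PolyC orc D ctx x)
    (hz : PolyC orc D ctx zs) (hkk : PolyN orc D ctx kk) (hl : PolyN orc D ctx l)
    (ht : PolyN orc D ctx t) (ht1 : ∀ a, D a → 1 ≤ t a)
    (hi : PolyN orc D ctx i) (hm : PolyN orc D ctx m) :
    PolyB orc D ctx (fun a => posC (x a) (zs a) (kk a) (l a) (t a) (i a) (m a)) := by
  have hN := nv_poly hx
  have h1 : ∀ a, D a → 1 ≤ nv (x a) := fun a _ => Nat.succ_pos _
  have hd := (div_poly hi ht ht1).mul hl
  have hr := mod_poly hi ht ht1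
  have hm' := div_poly hm hN h1
  exact (clqS_poly hx hz hl hd).not.or ((PolyB.le (hl.add (hr.mul hkk)) hm').and
    ((PolyB.lt hm' (hl.add (hr.succ.mul hkk))).and (exdS_poly hx hz hl hd (mod_poly hm hN h1))))

theorem clause_poly {n : α → ℕ} {pos neg : α → ℕ → Bool} (hn : PolyN orc D ctx n)
    (hp : PolyB (fun p : α × ℕ => orc p.1) (fun p => D p.1 ∧ p.2 < n p.1)
      (lift ctx ++ [fun p => una p.2]) (fun p => pos p.1 p.2))
    (hg : PolyB (fun p : α × ℕ => orc p.1) (fun p => D p.1 ∧ p.2 < n p.1)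
      (lift ctx ++ [fun p => una p.2]) (fun p => neg p.1 p.2)) :
    PolyC orc D ctx (fun a => clause (n a) (pos a) (neg a)) := by
  have hi := idx (orc := orc) (D := D) (ctx := ctx) (n := n)
  refine PolyC.flatMap_range (t := fun p : α × ℕ =>
    (if pos p.1 p.2 then pr (true :: una p.2) [] else []) ++
    (if neg p.1 p.2 then pr (false :: una p.2) [] else [])) hn ?_
  have h1 : PolyC (fun p : α × ℕ => orc p.1) (fun p => D p.1 ∧ p.2 < n p.1)
      (lift ctx ++ [fun p => una p.2]) (fun p => pr (true :: una p.2) []) :=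
    PolyC.pr (PolyC.cons true hi) PolyC.nil
  have h2 : PolyC (fun p : α × ℕ => orc p.1) (fun p => D p.1 ∧ p.2 < n p.1)
      (lift ctx ++ [fun p => una p.2]) (fun p => pr (false :: una p.2) []) :=
    PolyC.pr (PolyC.cons false hi) PolyC.nil
  exact PolyC.append (PolyC.ite hp (PolyC.mono h1 fun _ h => h.1) PolyC.nil)
    (PolyC.ite hg (PolyC.mono h2 fun _ h => h.1) PolyC.nil)

theorem cnf_poly {x zs : α → Str} {kk l t : α → ℕ} {md : α → Bool} (hx : PolyC orc D ctx x)
    (hz : PolyC orc D ctx zs) (hkk : PolyN orc D ctx kk) (hl : PolyN orc D ctx l)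
    (hl1 : ∀ a, D a → 1 ≤ l a) (ht : PolyN orc D ctx t) (ht1 : ∀ a, D a → 1 ≤ t a)
    (hmd : PolyB orc D ctx md) :
    PolyC orc D ctx (fun a => cnf (x a) (zs a) (kk a) (l a) (t a) (md a)) := by
  have hB : PolyN orc D ctx (fun a => nB (kk a) (l a) (t a)) := hl.add (ht.mul hkk)
  have hB1 : ∀ a, D a → 1 ≤ nB (kk a) (l a) (t a) := fun a ha => by
    have := hl1 a ha
    rw [nB]
    omega
  have hn : PolyN orc D ctx (fun a => nB (kk a) (l a) (t a) * nv (x a)) := hB.mul (nv_poly hx)
  -- the clauses of type A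
  have hA : PolyC orc D ctx (fun a => lenc ((List.range (nB (kk a) (l a) (t a))).map (fun b =>
      clause (nB (kk a) (l a) (t a) * nv (x a)) (posA (x a) (zs a) (l a) (md a) b)
        (fun _ => false)))) := by
    refine PolyC.lenc_range (f := fun p : α × ℕ =>
      clause (nB (kk p.1) (l p.1) (t p.1) * nv (x p.1))
        (posA (x p.1) (zs p.1) (l p.1) (md p.1) p.2) (fun _ => false)) hB ?_
    have hb1 := idx (orc := orc) (D := D) (ctx := ctx) (n := fun a => nB (kk a) (l a) (t a))
    have hx1 := up (n := fun a => nB (kk a) (l a) (t a)) hx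
    have hz1 := up (n := fun a => nB (kk a) (l a) (t a)) hz
    have hl1' := upN (n := fun a => nB (kk a) (l a) (t a)) hl
    have hmd1 : PolyB (fun p : α × ℕ => orc p.1) (fun p => D p.1 ∧ p.2 < nB (kk p.1) (l p.1) (t p.1))
      (lift ctx ++ [fun p => una p.2]) (fun p => md p.1) :=
      up (n := fun a => nB (kk a) (l a) (t a)) hmd
    have hn1 := upN (n := fun a => nB (kk a) (l a) (t a)) hn
    refine clause_poly (n := fun p : α × ℕ => nB (kk p.1) (l p.1) (t p.1) * nv (x p.1))
      (pos := fun p => posA (x p.1) (zs p.1) (l p.1) (md p.1) p.2) (neg := fun _ _ => false) hn1 ?_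
      (PolyB.const false)
    have hm2 := idx (orc := fun p : α × ℕ => orc p.1)
      (D := fun p : α × ℕ => D p.1 ∧ p.2 < nB (kk p.1) (l p.1) (t p.1))
      (ctx := lift ctx ++ [fun p => una p.2])
      (n := fun p : α × ℕ => nB (kk p.1) (l p.1) (t p.1) * nv (x p.1))
    exact posA_poly (up (n := fun p : α × ℕ => nB (kk p.1) (l p.1) (t p.1) * nv (x p.1)) hx1)
      (up (n := fun p : α × ℕ => nB (kk p.1) (l p.1) (t p.1) * nv (x p.1)) hz1)
      (upN (n := fun p : α × ℕ => nB (kk p.1) (l p.1) (t p.1) * nv (x p.1)) hl1')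
      (fun p hp => hl1 _ hp.1.1)
      (up (n := fun p : α × ℕ => nB (kk p.1) (l p.1) (t p.1) * nv (x p.1)) hmd1)
      (upN (n := fun p : α × ℕ => nB (kk p.1) (l p.1) (t p.1) * nv (x p.1)) hb1) hm2
  -- the clauses of type B
  have hBB : PolyC orc D ctx (fun a => lenc ((List.range (nB (kk a) (l a) (t a) * nv (x a) *
      nB (kk a) (l a) (t a))).map (fun i =>
      clause (nB (kk a) (l a) (t a) * nv (x a)) (posB (x a) (l a) (nB (kk a) (l a) (t a)) i)
        (fun m => decide (m = i / nB (kk a) (l a) (t a)))))) := by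
    refine PolyC.lenc_range (f := fun p : α × ℕ =>
      clause (nB (kk p.1) (l p.1) (t p.1) * nv (x p.1))
        (posB (x p.1) (l p.1) (nB (kk p.1) (l p.1) (t p.1)) p.2)
        (fun m => decide (m = p.2 / nB (kk p.1) (l p.1) (t p.1)))) (hn.mul hB) ?_
    have hb1 := idx (orc := orc) (D := D) (ctx := ctx)
      (n := fun a => nB (kk a) (l a) (t a) * nv (x a) * nB (kk a) (l a) (t a))
    have hx1 := up (n := fun a => nB (kk a) (l a) (t a) * nv (x a) * nB (kk a) (l a) (t a)) hx
    have hl1' := upN (n := fun a => nB (kk a) (l a) (t a) * nv (x a) * nB (kk a) (l a) (t a)) hl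
    have hB1' := upN (n := fun a => nB (kk a) (l a) (t a) * nv (x a) * nB (kk a) (l a) (t a)) hB
    have hn1 := upN (n := fun a => nB (kk a) (l a) (t a) * nv (x a) * nB (kk a) (l a) (t a)) hn
    have hm2 := idx (orc := fun p : α × ℕ => orc p.1)
      (D := fun p : α × ℕ => D p.1 ∧
        p.2 < nB (kk p.1) (l p.1) (t p.1) * nv (x p.1) * nB (kk p.1) (l p.1) (t p.1))
      (ctx := lift ctx ++ [fun p => una p.2])
      (n := fun p : α × ℕ => nB (kk p.1) (l p.1) (t p.1) * nv (x p.1))
    have hx2 := up (n := fun p : α × ℕ => nB (kk p.1) (l p.1) (t p.1) * nv (x p.1)) hx1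
    have hl2 := upN (n := fun p : α × ℕ => nB (kk p.1) (l p.1) (t p.1) * nv (x p.1)) hl1'
    have hB2 := upN (n := fun p : α × ℕ => nB (kk p.1) (l p.1) (t p.1) * nv (x p.1)) hB1'
    have hb2 := upN (n := fun p : α × ℕ => nB (kk p.1) (l p.1) (t p.1) * nv (x p.1)) hb1
    exact clause_poly (n := fun p : α × ℕ => nB (kk p.1) (l p.1) (t p.1) * nv (x p.1))
      (pos := fun p => posB (x p.1) (l p.1) (nB (kk p.1) (l p.1) (t p.1)) p.2)
      (neg := fun p m => decide (m = p.2 / nB (kk p.1) (l p.1) (t p.1))) hn1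
      (posB_poly hx2 hl2 hB2 (fun p hp => hB1 _ hp.1.1) hb2 hm2)
      (PolyB.natEq hm2 (div_poly hb2 hB2 (fun p hp => hB1 _ hp.1.1)))
  -- the clauses of type C
  have hq : PolyN orc D ctx (fun a => llen (zs a) / l a * t a) :=
    (div_poly (PolyN.llen hz) hl hl1).mul ht
  have hC : PolyC orc D ctx (fun a => lenc ((List.range (llen (zs a) / l a * t a)).map (fun i =>
      clause (nB (kk a) (l a) (t a) * nv (x a)) (posC (x a) (zs a) (kk a) (l a) (t a) i)
        (fun _ => !clqS (x a) (zs a) (l a) (i / t a * l a))))) := by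
    refine PolyC.lenc_range (f := fun p : α × ℕ =>
      clause (nB (kk p.1) (l p.1) (t p.1) * nv (x p.1))
        (posC (x p.1) (zs p.1) (kk p.1) (l p.1) (t p.1) p.2)
        (fun _ => !clqS (x p.1) (zs p.1) (l p.1) (p.2 / t p.1 * l p.1))) hq ?_
    have hb1 := idx (orc := orc) (D := D) (ctx := ctx) (n := fun a => llen (zs a) / l a * t a)
    have hx1 := up (n := fun a => llen (zs a) / l a * t a) hx
    have hz1 := up (n := fun a => llen (zs a) / l a * t a) hz
    have hkk1 := upN (n := fun a => llen (zs a) / l a * t a) hkk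
    have hl1' := upN (n := fun a => llen (zs a) / l a * t a) hl
    have ht1' := upN (n := fun a => llen (zs a) / l a * t a) ht
    have hn1 := upN (n := fun a => llen (zs a) / l a * t a) hn
    have hm2 := idx (orc := fun p : α × ℕ => orc p.1)
      (D := fun p : α × ℕ => D p.1 ∧ p.2 < llen (zs p.1) / l p.1 * t p.1)
      (ctx := lift ctx ++ [fun p => una p.2])
      (n := fun p : α × ℕ => nB (kk p.1) (l p.1) (t p.1) * nv (x p.1))
    have hx2 := up (n := fun p : α × ℕ => nB (kk p.1) (l p.1) (t p.1) * nv (x p.1)) hx1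
    have hz2 := up (n := fun p : α × ℕ => nB (kk p.1) (l p.1) (t p.1) * nv (x p.1)) hz1
    have hkk2 := upN (n := fun p : α × ℕ => nB (kk p.1) (l p.1) (t p.1) * nv (x p.1)) hkk1
    have hl2 := upN (n := fun p : α × ℕ => nB (kk p.1) (l p.1) (t p.1) * nv (x p.1)) hl1'
    have ht2 := upN (n := fun p : α × ℕ => nB (kk p.1) (l p.1) (t p.1) * nv (x p.1)) ht1'
    have hb2 := upN (n := fun p : α × ℕ => nB (kk p.1) (l p.1) (t p.1) * nv (x p.1)) hb1
    exact clause_poly (n := fun p : α × ℕ => nB (kk p.1) (l p.1) (t p.1) * nv (x p.1))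
      (pos := fun p => posC (x p.1) (zs p.1) (kk p.1) (l p.1) (t p.1) p.2)
      (neg := fun p _ => !clqS (x p.1) (zs p.1) (l p.1) (p.2 / t p.1 * l p.1)) hn1
      (posC_poly hx2 hz2 hkk2 hl2 ht2 (fun p hp => ht1 _ hp.1.1) hb2 hm2)
      (PolyB.not (clqS_poly hx2 hz2 hl2
        ((div_poly hb2 ht2 (fun p hp => ht1 _ hp.1.1)).mul hl2)))
  exact PolyC.pr hn (PolyC.append hA (PolyC.append
    (PolyC.ite hmd PolyC.nil (PolyC.mono hBB fun _ h => h.1)) hC))

end

end Pool.Agent.Lib.Pf91712c
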