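import Pool.Agent.Lib.Pf91712q.Prg
import Pool.Agent.Lib.Pf91712c.Gen
import Pool.Agent.Lib.Pf91712c.Bits

/-!
The counting problem and the program.
-/

set_option autoImplicit false

namespace Pool.Agent.Lib.Pf91712c

open Pool.Agent.Lib.Pa76659 (Str Lang PO Prog Halts accepts inp)
open Pool.Agent.Lib.Pa76659G (pr on1 fst snd emp FPO)
open Pool.Agent.Lib.Pa76659G.PC
open Pool.Agent.Lib.Pf91712 (bitsOf)
open Pool.Agent.Lib.Pf91712q (up upN idx div_poly machine)

/-- the advice: `kk k`, `ll k - 1`, `t k - 1` in unary -/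
def advC (kk ll t : ℕ → ℕ) (k : ℕ) : Str :=
  pr (on1 (kk k)) (pr (on1 (ll k - 1)) (on1 (t k - 1)))

/-- the reduction of the counting problem: from `pr (pr x (md :: zs)) (advC k)` to the formula -/
def RC (w : Str) : Str :=
  cnf (fst (fst w)) (snd (fst w)).tail (fst (snd w)).length ((fst (snd (snd w))).length + 1)
    ((snd (snd (snd w))).length + 1) ((snd (fst w)).headD false)

/-- the counting problem -/
noncomputable def FC (kk ll t : ℕ → ℕ) (y : Str) (k : ℕ) : ℕ :=
  wsat (RC (pr y (advC kk ll t k))) (ll k + t k * kk k)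

theorem RC_mem : RC ∈ FPO emp := by
  refine Pool.Agent.Lib.Pa76659G.Uo.FPO_of_polyC ?_
  have hw : PolyC (fun _ : Str => emp) (fun _ => True) [fun x => x] (fun w => w) :=
    PolyC.var (by simp)
  have hy := PolyC.fst hw
  have hP := PolyC.snd hw
  exact cnf_poly (PolyC.fst hy) (PolyC.tail (PolyC.snd hy)) (PolyN.length (PolyC.fst hP))
    (PolyN.length (PolyC.fst (PolyC.snd hP))).succ (fun _ _ => Nat.succ_pos _)
    (PolyN.length (PolyC.snd (PolyC.snd hP))).succ (fun _ _ => Nat.succ_pos _)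
    (PolyB.headD (PolyC.snd hy))

theorem RC_eq (kk ll t : ℕ → ℕ) (x zs : Str) (md : Bool) (k : ℕ) (hl : 1 ≤ ll k) (ht : 1 ≤ t k) :
    RC (pr (pr x (md :: zs)) (advC kk ll t k)) = cnf x zs (kk k) (ll k) (t k) md := by
  simp only [RC, advC, fst_pr, snd_pr, List.tail_cons, List.headD_cons, on1, List.length_replicate]
  rw [Nat.sub_add_cancel hl, Nat.sub_add_cancel ht]

/-- the query for the digit `i` of the value at `pr x (md :: zs)` -/
def qC (x : Str) (k : ℕ) (md : Bool) (zs : Str) (i : ℕ) : Str :=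
  una k ++ false :: (una i ++ false :: pr x (md :: zs))

/-- the digit `i` of the value at `pr x (md :: zs)` -/
def bt (F : Str → ℕ → ℕ) (x : Str) (k : ℕ) (md : Bool) (zs : Str) (i : ℕ) : Bool :=
  bitsOf F k (qC x k md zs i)

/-- comparison of the values at `zs` and `zs'` -/
def leB (F : Str → ℕ → ℕ) (x : Str) (k : ℕ) (md : Bool) (L : ℕ) (zs zs' : Str) : Bool :=
  decide (∀ i < L, (!(bt F x k md zs i && !bt F x k md zs' i) ||
    decide (∃ j < L, (decide (i < j) && (!bt F x k md zs j && bt F x k md zs' j)) = true)) = true)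

/-- the list with one more number -/
def ext (zs : Str) (v : ℕ) : Str := zs ++ pr (una v) []

/-- `v` is a best next number; `cp` tells that the test becomes complete -/
def gd (F : Str → ℕ → ℕ) (x : Str) (k : ℕ) (L N : ℕ) (cp : Bool) (zs : Str) (v : ℕ) : Bool :=
  decide (∀ w < N, (if cp then leB F x k true L (ext zs v) (ext zs w)
    else leB F x k false L (ext zs w) (ext zs v)) = true)

/-- one step of the algorithm -/
def stC (F : Str → ℕ → ℕ) (x : Str) (k l L : ℕ) (zs : Str) : Str :=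
  ext zs (bst (nv x) (gd F x k L (nv x) (decide ((llen zs + 1) % l = 0)) zs))

/-- the bound for the number of digits -/
def LC (kk ll t : ℕ → ℕ) (x : Str) (k : ℕ) : ℕ := (ll k + t k * kk k) * nv x + 1

/-- the number of the steps -/
def WC (kk ll : ℕ → ℕ) (c : ℕ) (x : Str) (k : ℕ) : ℕ :=
  nv x ^ c * (kk k * nv x + 1) * ll k

/-- the answer -/
def outC (F : Str → ℕ → ℕ) (x : Str) (k L : ℕ) (zs : Str) : Bool :=
  decide (∃ i < L, bt F x k true zs i = true)

section

variable {α : Type*} {D : α → Prop} {ctx : List (α → Str)} (F : Str → ℕ → ℕ) {kf : α → ℕ}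
  {x zs zs' : α → Str} {L i : α → ℕ}

theorem bt_poly (md : Bool) (hx : PolyC (fun a => bitsOf F (kf a)) D ctx x)
    (hk : PolyN (fun a => bitsOf F (kf a)) D ctx kf)
    (hz : PolyC (fun a => bitsOf F (kf a)) D ctx zs)
    (hi : PolyN (fun a => bitsOf F (kf a)) D ctx i) :
    PolyB (fun a => bitsOf F (kf a)) D ctx (fun a => bt F (x a) (kf a) md (zs a) (i a)) :=
  PolyC.query (PolyC.append hk (PolyC.cons false (PolyC.append hi (PolyC.cons false
    (PolyC.pr hx (PolyC.cons md hz))))))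

theorem leB_poly (md : Bool) (hx : PolyC (fun a => bitsOf F (kf a)) D ctx x)
    (hk : PolyN (fun a => bitsOf F (kf a)) D ctx kf)
    (hL : PolyN (fun a => bitsOf F (kf a)) D ctx L)
    (hz : PolyC (fun a => bitsOf F (kf a)) D ctx zs)
    (hz' : PolyC (fun a => bitsOf F (kf a)) D ctx zs') :
    PolyB (fun a => bitsOf F (kf a)) D ctx
      (fun a => leB F (x a) (kf a) md (L a) (zs a) (zs' a)) := by
  have hx1 := up (n := L) hx
  have hk1 := upN (n := L) hk
  have hL1 := upN (n := L) hL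
  have hz1 := up (n := L) hz
  have hz1' := up (n := L) hz'
  have hi1 := idx (orc := fun a => bitsOf F (kf a)) (D := D) (ctx := ctx) (n := L)
  refine PolyB.forall_lt (φ := fun p : α × ℕ =>
    !(bt F (x p.1) (kf p.1) md (zs p.1) p.2 && !bt F (x p.1) (kf p.1) md (zs' p.1) p.2) ||
    decide (∃ j < L p.1, (decide (p.2 < j) && (!bt F (x p.1) (kf p.1) md (zs p.1) j &&
      bt F (x p.1) (kf p.1) md (zs' p.1) j)) = true)) hL ?_
  refine PolyB.or (PolyB.not (PolyB.and
    (bt_poly F (kf := fun p : α × ℕ => kf p.1) md hx1 hk1 hz1 hi1)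
    (PolyB.not (bt_poly F (kf := fun p : α × ℕ => kf p.1) md hx1 hk1 hz1' hi1)))) ?_
  have hx2 := up (n := fun p : α × ℕ => L p.1) hx1
  have hk2 := upN (n := fun p : α × ℕ => L p.1) hk1
  have hz2 := up (n := fun p : α × ℕ => L p.1) hz1
  have hz2' := up (n := fun p : α × ℕ => L p.1) hz1'
  have hi2 := upN (n := fun p : α × ℕ => L p.1) hi1
  have hj2 := idx (orc := fun p : α × ℕ => bitsOf F (kf p.1))
    (D := fun p : α × ℕ => D p.1 ∧ p.2 < L p.1)
    (ctx := lift ctx ++ [fun p => una p.2]) (n := fun p : α × ℕ => L p.1)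
  refine PolyB.exists_lt (φ := fun p : (α × ℕ) × ℕ => decide (p.1.2 < p.2) &&
    (!bt F (x p.1.1) (kf p.1.1) md (zs p.1.1) p.2 &&
      bt F (x p.1.1) (kf p.1.1) md (zs' p.1.1) p.2)) hL1 ?_
  exact (PolyB.lt hi2 hj2).and
    ((PolyB.not (bt_poly F (kf := fun p : (α × ℕ) × ℕ => kf p.1.1) md hx2 hk2 hz2 hj2)).and
      (bt_poly F (kf := fun p : (α × ℕ) × ℕ => kf p.1.1) md hx2 hk2 hz2' hj2))

theorem ext_poly {orc : α → Lang} {v : α → ℕ} (hz : PolyC orc D ctx zs)
    (hv : PolyN orc D ctx v) : PolyC orc D ctx (fun a => ext (zs a) (v a)) :=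
  PolyC.append hz (PolyC.pr hv PolyC.nil)

theorem gd_poly {N v : α → ℕ} {cp : α → Bool} (hx : PolyC (fun a => bitsOf F (kf a)) D ctx x)
    (hk : PolyN (fun a => bitsOf F (kf a)) D ctx kf)
    (hL : PolyN (fun a => bitsOf F (kf a)) D ctx L)
    (hN : PolyN (fun a => bitsOf F (kf a)) D ctx N)
    (hcp : PolyB (fun a => bitsOf F (kf a)) D ctx cp)
    (hz : PolyC (fun a => bitsOf F (kf a)) D ctx zs)
    (hv : PolyN (fun a => bitsOf F (kf a)) D ctx v) :
    PolyB (fun a => bitsOf F (kf a)) D ctx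
      (fun a => gd F (x a) (kf a) (L a) (N a) (cp a) (zs a) (v a)) := by
  have hx1 := up (n := N) hx
  have hk1 := upN (n := N) hk
  have hL1 := upN (n := N) hL
  have hz1 := up (n := N) hz
  have hv1 := upN (n := N) hv
  have hcp1 : PolyB (fun p : α × ℕ => bitsOf F (kf p.1)) (fun p => D p.1 ∧ p.2 < N p.1)
      (lift ctx ++ [fun p => una p.2]) (fun p => cp p.1) := up (n := N) hcp
  have hw1 := idx (orc := fun a => bitsOf F (kf a)) (D := D) (ctx := ctx) (n := N)
  refine PolyB.forall_lt (φ := fun p : α × ℕ =>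
    if cp p.1 then leB F (x p.1) (kf p.1) true (L p.1) (ext (zs p.1) (v p.1)) (ext (zs p.1) p.2)
    else leB F (x p.1) (kf p.1) false (L p.1) (ext (zs p.1) p.2) (ext (zs p.1) (v p.1))) hN ?_
  have h1 := leB_poly F (kf := fun p : α × ℕ => kf p.1) true hx1 hk1 hL1 (ext_poly hz1 hv1)
    (ext_poly hz1 hw1)
  have h2 := leB_poly F (kf := fun p : α × ℕ => kf p.1) false hx1 hk1 hL1 (ext_poly hz1 hw1)
    (ext_poly hz1 hv1)
  exact PolyB.ite hcp1 (PolyC.mono h1 fun _ h => h.1) (PolyC.mono h2 fun _ h => h.1)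

theorem bst_poly {orc : α → Lang} {N : α → ℕ} {good : α → ℕ → Bool} (hN : PolyN orc D ctx N)
    (hg : PolyB (fun p : (α × ℕ) × ℕ => orc p.1.1)
      (fun p => (D p.1.1 ∧ p.1.2 < N p.1.1) ∧ p.2 < p.1.2 + 1)
      (lift (lift ctx ++ [fun p => una p.2]) ++ [fun p => una p.2])
      (fun p => good p.1.1 p.2)) :
    PolyN orc D ctx (fun a => bst (N a) (good a)) := by
  have hi1 := idx (orc := orc) (D := D) (ctx := ctx) (n := N)
  refine PolyN.count (φ := fun p : α × ℕ => decide (∀ v' < p.2 + 1, (!good p.1 v') = true)) hN ?_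
  exact PolyB.forall_lt (φ := fun p : (α × ℕ) × ℕ => !good p.1.1 p.2) (PolyN.succ hi1)
    (PolyB.not hg)

theorem stC_poly {l : α → ℕ} (hx : PolyC (fun a => bitsOf F (kf a)) D ctx x)
    (hk : PolyN (fun a => bitsOf F (kf a)) D ctx kf)
    (hl : PolyN (fun a => bitsOf F (kf a)) D ctx l) (hl1 : ∀ a, D a → 1 ≤ l a)
    (hL : PolyN (fun a => bitsOf F (kf a)) D ctx L)
    (hz : PolyC (fun a => bitsOf F (kf a)) D ctx zs) :
    PolyC (fun a => bitsOf F (kf a)) D ctx
      (fun a => stC F (x a) (kf a) (l a) (L a) (zs a)) := by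
  have hN := nv_poly hx
  have hcp : PolyB (fun a => bitsOf F (kf a)) D ctx
      (fun a => decide ((llen (zs a) + 1) % l a = 0)) :=
    PolyB.natEq (mod_poly (PolyN.llen hz).succ hl hl1) (PolyN.const 0)
  refine ext_poly hz (bst_poly (good := fun a => gd F (x a) (kf a) (L a) (nv (x a))
    (decide ((llen (zs a) + 1) % l a = 0)) (zs a)) hN ?_)
  have hi1 := idx (orc := fun a => bitsOf F (kf a)) (D := D) (ctx := ctx) (n := fun a => nv (x a))
  have hx1 := up (n := fun a => nv (x a)) hx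
  have hk1 := upN (n := fun a => nv (x a)) hk
  have hL1 := upN (n := fun a => nv (x a)) hL
  have hN1 := upN (n := fun a => nv (x a)) hN
  have hz1 := up (n := fun a => nv (x a)) hz
  have hcp1 : PolyB (fun p : α × ℕ => bitsOf F (kf p.1)) (fun p => D p.1 ∧ p.2 < nv (x p.1))
      (lift ctx ++ [fun p => una p.2]) (fun p => decide ((llen (zs p.1) + 1) % l p.1 = 0)) :=
    up (n := fun a => nv (x a)) hcp
  have hj2 := idx (orc := fun p : α × ℕ => bitsOf F (kf p.1))
    (D := fun p : α × ℕ => D p.1 ∧ p.2 < nv (x p.1))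
    (ctx := lift ctx ++ [fun p => una p.2]) (n := fun p : α × ℕ => p.2 + 1)
  have hcp2 : PolyB (fun p : (α × ℕ) × ℕ => bitsOf F (kf p.1.1))
      (fun p => (D p.1.1 ∧ p.1.2 < nv (x p.1.1)) ∧ p.2 < p.1.2 + 1)
      (lift (lift ctx ++ [fun p => una p.2]) ++ [fun p => una p.2])
      (fun p => decide ((llen (zs p.1.1) + 1) % l p.1.1 = 0)) :=
    up (n := fun p : α × ℕ => p.2 + 1) hcp1
  exact gd_poly F (kf := fun p : (α × ℕ) × ℕ => kf p.1.1)
    (up (n := fun p : α × ℕ => p.2 + 1) hx1) (upN (n := fun p : α × ℕ => p.2 + 1) hk1)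
    (upN (n := fun p : α × ℕ => p.2 + 1) hL1) (upN (n := fun p : α × ℕ => p.2 + 1) hN1) hcp2
    (up (n := fun p : α × ℕ => p.2 + 1) hz1) hj2

theorem outC_poly (hx : PolyC (fun a => bitsOf F (kf a)) D ctx x)
    (hk : PolyN (fun a => bitsOf F (kf a)) D ctx kf)
    (hL : PolyN (fun a => bitsOf F (kf a)) D ctx L)
    (hz : PolyC (fun a => bitsOf F (kf a)) D ctx zs) :
    PolyB (fun a => bitsOf F (kf a)) D ctx (fun a => outC F (x a) (kf a) (L a) (zs a)) := by
  refine PolyB.exists_lt (φ := fun p : α × ℕ => bt F (x p.1) (kf p.1) true (zs p.1) p.2) hL ?_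
  exact bt_poly F (kf := fun p : α × ℕ => kf p.1) true (up (n := L) hx) (upN (n := L) hk)
    (up (n := L) hz) (idx (orc := fun a => bitsOf F (kf a)) (D := D) (ctx := ctx) (n := L))

end

/-- the advice for the program -/
def advT (kk ll t : ℕ → ℕ) (k : ℕ) : Str := pr (on1 k) (pr (on1 (kk k)) (pr (on1 (ll k)) (on1 (t k))))

theorem stC_length (F : Str → ℕ → ℕ) (x : Str) (k l L : ℕ) (i : ℕ) :
    ((stC F x k l L)^[i] []).length ≤ i * (2 * nv x + 1) := by
  induction i with
  | zero => simp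
  | succ i ih =>
    rw [Function.iterate_succ_apply', stC, ext, List.length_append,
      pr_length, un_length]
    have h1 : bst (nv x) (gd F x k L (nv x)
        (decide ((llen ((stC F x k l L)^[i] []) + 1) % l = 0)) ((stC F x k l L)^[i] [])) ≤ nv x := by
      rw [bst]
      refine (List.length_filter_le _ _).trans ?_
      rw [List.length_range]
    simp only [List.length_nil]
    nlinarith

theorem progC (F : Str → ℕ → ℕ) (kk ll t : ℕ → ℕ) (c : ℕ) (hl1 : ∀ k, 1 ≤ ll k) :
    ∃ (M : Prog) (p : Polynomial ℕ), ∀ x k,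
      Halts (bitsOf F k) M (inp (pr x (advT kk ll t k)))
        (p.eval (pr x (advT kk ll t k)).length) ∧
      accepts (bitsOf F k) M (inp (pr x (advT kk ll t k)))
        (p.eval (pr x (advT kk ll t k)).length) =
        outC F x k (LC kk ll t x k)
          ((stC F x k (ll k) (LC kk ll t x k))^[WC kk ll c x k] []) := by
  let orc : Str × ℕ → Lang := fun a => bitsOf F a.2
  let w : Str × ℕ → Str := fun a => pr a.1 (advT kk ll t a.2)
  have hw : PolyC orc (fun _ => True) [w] w := PolyC.var (by simp)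
  have hx : PolyC orc (fun _ => True) [w] (fun a => a.1) :=
    (PolyC.fst hw).congr (fun a _ => fst_pr _ _)
  have hs : PolyC orc (fun _ => True) [w] (fun a => advT kk ll t a.2) :=
    (PolyC.snd hw).congr (fun a _ => snd_pr _ _)
  have hk : PolyN orc (fun _ => True) [w] (fun a => a.2) :=
    (PolyC.fst hs).congr (fun a _ => fst_pr _ _)
  have hs2 : PolyC orc (fun _ => True) [w] (fun a => pr (on1 (kk a.2))
      (pr (on1 (ll a.2)) (on1 (t a.2)))) := (PolyC.snd hs).congr (fun a _ => snd_pr _ _)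
  have hkk : PolyN orc (fun _ => True) [w] (fun a => kk a.2) :=
    (PolyC.fst hs2).congr (fun a _ => fst_pr _ _)
  have hs3 : PolyC orc (fun _ => True) [w] (fun a => pr (on1 (ll a.2)) (on1 (t a.2))) :=
    (PolyC.snd hs2).congr (fun a _ => snd_pr _ _)
  have hll : PolyN orc (fun _ => True) [w] (fun a => ll a.2) :=
    (PolyC.fst hs3).congr (fun a _ => fst_pr _ _)
  have ht : PolyN orc (fun _ => True) [w] (fun a => t a.2) :=
    (PolyC.snd hs3).congr (fun a _ => snd_pr _ _)
  have hN := nv_poly hx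
  have hL : PolyN orc (fun _ => True) [w] (fun a => LC kk ll t a.1 a.2) :=
    ((hll.add (ht.mul hkk)).mul hN).add (PolyN.const 1)
  have h1 : PolyN orc (fun _ => True) [w] (fun a => kk a.2 * nv a.1 + 1) :=
    (hkk.mul hN).add (PolyN.const 1)
  have h2 : PolyN orc (fun _ => True) [w] (fun a => nv a.1 ^ c) :=
    (hN.poly (Polynomial.X ^ c)).congr (fun a _ => by rw [Polynomial.eval_pow, Polynomial.eval_X])
  have hW : PolyN orc (fun _ => True) [w] (fun a => WC kk ll c a.1 a.2) := (h2.mul h1).mul hll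
  have hV : PolyN orc (fun _ => True) [w] (fun a => WC kk ll c a.1 a.2 * (2 * nv a.1 + 1)) :=
    hW.mul (((PolyN.const 2).mul hN).add (PolyN.const 1))
  have hg : PolyC (fun p : (Str × ℕ) × Str => orc p.1) (fun p => True)
      (lift [w] ++ [fun p => p.2])
      (fun p => stC F p.1.1 p.1.2 (ll p.1.2) (LC kk ll t p.1.1 p.1.2) p.2) := by
    have hz : PolyC (fun p : (Str × ℕ) × Str => orc p.1) (fun p => True)
      (lift [w] ++ [fun p => p.2]) (fun p => p.2) := PolyC.var (by simp)
    have hx' : PolyC (fun p : (Str × ℕ) × Str => orc p.1) (fun p => True)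
      (lift [w] ++ [fun p => p.2]) (fun p => p.1.1) :=
      (PolyC.lift hx (fun _ _ => trivial)).weakenRight _
    have hk' : PolyN (fun p : (Str × ℕ) × Str => orc p.1) (fun p => True)
      (lift [w] ++ [fun p => p.2]) (fun p => p.1.2) :=
      (PolyC.lift hk (fun _ _ => trivial)).weakenRight _
    have hll' : PolyN (fun p : (Str × ℕ) × Str => orc p.1) (fun p => True)
      (lift [w] ++ [fun p => p.2]) (fun p => ll p.1.2) :=
      (PolyC.lift hll (fun _ _ => trivial)).weakenRight _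
    have hL' : PolyN (fun p : (Str × ℕ) × Str => orc p.1) (fun p => True)
      (lift [w] ++ [fun p => p.2]) (fun p => LC kk ll t p.1.1 p.1.2) :=
      (PolyC.lift hL (fun _ _ => trivial)).weakenRight _
    exact stC_poly F (kf := fun p : (Str × ℕ) × Str => p.1.2) hx' hk' hll'
      (fun p _ => hl1 _) hL' hz
  have hi : PolyC orc (fun _ => True) [w] (fun a =>
      (stC F a.1 a.2 (ll a.2) (LC kk ll t a.1 a.2))^[WC kk ll c a.1 a.2] []) := by
    obtain ⟨pV, hpV⟩ := PolyC.length_le hV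
    have hB : ∃ B : Polynomial ℕ, ∀ a : Str × ℕ, True → ∀ i, i ≤ WC kk ll c a.1 a.2 →
        ((stC F a.1 a.2 (ll a.2) (LC kk ll t a.1 a.2))^[i] []).length ≤
          B.eval (total (vals [w] a)) := by
      refine ⟨pV, fun a ha i hi => ?_⟩
      have h3 := hpV a ha
      rw [un_length] at h3
      exact (stC_length F a.1 a.2 (ll a.2) (LC kk ll t a.1 a.2) i).trans
        ((Nat.mul_le_mul_right _ hi).trans h3)
    exact PolyC.iter (orc := orc) (D := fun _ => True) (ctx := [w])
      (g := fun a z => stC F a.1 a.2 (ll a.2) (LC kk ll t a.1 a.2) z) (t := fun _ => [])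
      (n := fun a => WC kk ll c a.1 a.2) hg PolyC.nil hW hB
  have hfin : PolyB orc (fun _ => True) [w] (fun a => outC F a.1 a.2 (LC kk ll t a.1 a.2)
      ((stC F a.1 a.2 (ll a.2) (LC kk ll t a.1 a.2))^[WC kk ll c a.1 a.2] [])) :=
    outC_poly F (kf := fun a : Str × ℕ => a.2) hx hk hL hi
  obtain ⟨M, p, hM⟩ := machine hfin
  exact ⟨M, p, fun x k => hM (x, k)⟩

end Pool.Agent.Lib.Pf91712c
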