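import Pool.Agent.Lib.Pf91712c.SatI

/-!
The number of the satisfying assignments.

PLAN. `Sat` contains the condition of `card_blocks` (its first part), so by `card_blocks` the number is
the number of the `w ∈ tup (l + t * kk) N` with `Sat ... (so N w)`; rewrite it by `sat_iff`, transfer to
the card of a filter, split by `split_tup` (`w = y ++ s`, `w.take l = y`,
`(w.drop (l + j * kk)).take kk = (s.drop (j * kk)).take kk`), then `cnt_prod` for every `y`.
For `md = false`: the inner count is `(#{u ∈ tup kk N | inYN z u ∧ ∀ a b, ¬ dom u_a y_b}) ^ t` if `y`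
extends `lastN l z` and is a clique, and `0` otherwise; this is `cN ... z y ^ t` because
`kil x u y = (clq x y && ...)` and `0 ^ t = 0` for `1 ≤ t`.
-/

set_option autoImplicit false

namespace Pool.Agent.Lib.Pf91712c

open Pool.Agent.Lib.Pa76659 (Str)

theorem count_gen (x : Str) (kk l t : ℕ) (md : Bool) (z : List ℕ) (Q : List ℕ → Prop)
    [DecidablePred Q]
    (hQ : ∀ w ∈ tup (l + t * kk) (nv x), (Sat x kk l t md z (so (nv x) w) ↔ Q w)) :
    Nat.card {S : Finset ℕ // S ⊆ Finset.range ((l + t * kk) * nv x) ∧ S.card = l + t * kk ∧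
      Sat x kk l t md z S} = ((tup (l + t * kk) (nv x)).filter Q).card := by
  have hN : 1 ≤ nv x := Nat.succ_pos _
  have e1 : {S : Finset ℕ // S ⊆ Finset.range ((l + t * kk) * nv x) ∧ S.card = l + t * kk ∧
      Sat x kk l t md z S} ≃ {S : Finset ℕ // S ⊆ Finset.range ((l + t * kk) * nv x) ∧
        S.card = l + t * kk ∧ (∀ β < l + t * kk, ∃ m ∈ S, m / nv x = β) ∧
        Sat x kk l t md z S} := by
    refine Equiv.subtypeEquivRight ?_
    intro S
    constructor
    · rintro ⟨h1, h2, h3⟩
      refine ⟨h1, h2, ?_, h3⟩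
      intro β hβ
      obtain ⟨m, hm, hm2, -⟩ := h3.1 β hβ
      exact ⟨m, hm, hm2⟩
    · rintro ⟨h1, h2, -, h3⟩
      exact ⟨h1, h2, h3⟩
  rw [Nat.card_congr e1, card_blocks _ _ hN]
  have e2 : {w : List ℕ // w ∈ tup (l + t * kk) (nv x) ∧ Sat x kk l t md z (so (nv x) w)} ≃
      {w : List ℕ // w ∈ (tup (l + t * kk) (nv x)).filter Q} := by
    refine Equiv.subtypeEquivRight ?_
    intro w
    rw [Finset.mem_filter]
    constructor
    · rintro ⟨h1, h2⟩
      exact ⟨h1, (hQ w h1).1 h2⟩
    · rintro ⟨h1, h2⟩
      exact ⟨h1, (hQ w h1).2 h2⟩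
  rw [Nat.card_congr e2, Nat.card_eq_fintype_card, Fintype.card_coe]

theorem drop_app (l kk j : ℕ) (y s : List ℕ) (hy : y.length = l) :
    ((y ++ s).drop (l + j * kk)).take kk = (s.drop (j * kk)).take kk := by
  have h : (y ++ s).drop (l + j * kk) = s.drop (j * kk) := by
    rw [← List.drop_drop, ← hy]
    simp
  rw [h]

theorem count_false (x : Str) (kk l t : ℕ) (z : List ℕ) (hl : 1 ≤ l) (ht : 1 ≤ t) :
    Nat.card {S : Finset ℕ // S ⊆ Finset.range ((l + t * kk) * nv x) ∧ S.card = l + t * kk ∧
      Sat x kk l t false z S} = SSN (kil x) l (nv x) kk t z (lastN l z) := by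
  classical
  have hlast : (lastN l z).length ≤ l := by
    unfold lastN
    rw [List.length_drop]
    have := Nat.div_add_mod z.length l
    have h2 := Nat.mod_lt z.length hl
    rw [Nat.mul_comm] at this
    omega
  rw [count_gen x kk l t false z (fun w => w.take (lastN l z).length = lastN l z ∧
    clq x (w.take l) = true ∧ ∀ j < t, (inYN (kil x) l z ((w.drop (l + j * kk)).take kk) = true ∧
        ∀ a < kk, ∀ b < l,
          dom x (((w.drop (l + j * kk)).take kk).getD a 0) ((w.take l).getD b 0) = false))
    (by
      intro w hw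
      rw [sat_iff x kk l t false z w hl hw]
      simp)]
  rw [split_tup]
  unfold SSN
  refine Finset.sum_congr rfl fun y hy => ?_
  have hyl : y.length = l := (mem_tup.1 hy).1
  have ht1 : ∀ s : List ℕ, (y ++ s).take (lastN l z).length = y.take (lastN l z).length := by
    intro s
    rw [List.take_append_of_le_length (by omega)]
  have ht2 : ∀ s : List ℕ, (y ++ s).take l = y := by
    intro s
    rw [← hyl]
    simp
  simp only [ht1, ht2, drop_app l kk _ y _ hyl]
  by_cases h1 : y.take (lastN l z).length = lastN l z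
  · rw [if_pos h1]
    by_cases h2 : clq x y = true
    · have h3 := cnt_prod kk t (nv x) (fun u => inYN (kil x) l z u = true ∧
        ∀ a < kk, ∀ b < l, dom x (u.getD a 0) (y.getD b 0) = false)
      have h4 : ((tup kk (nv x)).filter (fun u => inYN (kil x) l z u = true ∧
        ∀ a < kk, ∀ b < l, dom x (u.getD a 0) (y.getD b 0) = false)).card =
          cN (kil x) l (nv x) kk z y := by
        unfold cN
        congr 1
        refine Finset.filter_congr ?_
        intro u hu
        have hul : u.length = kk := (mem_tup.1 hu).1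
        unfold kil
        rw [hul, hyl, h2]
        simp
      rw [← h4, ← h3]
      congr 1
      refine Finset.filter_congr ?_
      intro s hs
      constructor
      · rintro ⟨-, -, h⟩
        exact h
      · intro h
        exact ⟨h1, h2, h⟩
    · have h5 : cN (kil x) l (nv x) kk z y = 0 := by
        unfold cN
        rw [Finset.card_eq_zero, Finset.filter_eq_empty_iff]
        rintro u hu ⟨-, h⟩
        unfold kil at h
        rw [Bool.and_eq_true] at h
        exact h2 h.1
      rw [h5, Nat.zero_pow ht, Finset.card_eq_zero, Finset.filter_eq_empty_iff]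
      rintro s hs ⟨-, h, -⟩
      exact h2 h
  · rw [if_neg h1, Finset.card_eq_zero, Finset.filter_eq_empty_iff]
    rintro s hs ⟨h, -⟩
    exact h1 h

theorem count_true (x : Str) (kk l t : ℕ) (z : List ℕ) (hl : 1 ≤ l) :
    Nat.card {S : Finset ℕ // S ⊆ Finset.range ((l + t * kk) * nv x) ∧ S.card = l + t * kk ∧
      Sat x kk l t true z S} =
      nv x ^ l * ((tup kk (nv x)).filter (fun u => inYN (kil x) l z u = true)).card ^ t := by
  classical
  rw [count_gen x kk l t true z
    (fun w => ∀ j < t, inYN (kil x) l z ((w.drop (l + j * kk)).take kk) = true)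
    (by
      intro w hw
      rw [sat_iff x kk l t true z w hl hw]
      simp)]
  rw [split_tup]
  have h : ∀ y ∈ tup l (nv x), ((tup (t * kk) (nv x)).filter
      (fun s => ∀ j < t, inYN (kil x) l z (((y ++ s).drop (l + j * kk)).take kk) = true)).card =
      ((tup kk (nv x)).filter (fun u => inYN (kil x) l z u = true)).card ^ t := by
    intro y hy
    have hyl : y.length = l := (mem_tup.1 hy).1
    have h3 := cnt_prod kk t (nv x) (fun u => inYN (kil x) l z u = true)
    rw [← h3]
    simp only [drop_app l kk _ y _ hyl]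
  rw [Finset.sum_congr rfl h, Finset.sum_const, card_tup, smul_eq_mul]

end Pool.Agent.Lib.Pf91712c
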