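import Pool.Agent.Lib.Pf91712c.Tup

/-!
Clique dominating sets and tuples.

PLAN. `adj x u u = false`, so the entries of a clique `y` (`clq x y = true`) are distinct.
`yes_tup`: take a list of the elements of the set `S` (`Finset.toList`, values), padded with the vertex
`0` to length `k` (`nv x ≥ 1`); a clique `y ∈ tup l (nv x)` gives a `Finset (Fin (nv x))` with `l`
elements. `no_tup`: the set of all entries of the lists in `us` has at most `t * k` elements, so it does
not dominate some clique `C`; take for `y` a list of the elements of `C`.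
-/

set_option autoImplicit false

namespace Pool.Agent.Lib.Pf91712c

open Pool.Agent.Lib.Pa76659 (Str)

theorem adj_self (x : Str) (u : ℕ) : adj x u u = false := by
  simp [adj]

theorem nv_pos (x : Str) : 0 < nv x := Nat.succ_pos _

theorem clq_iff (x : Str) (y : List ℕ) : clq x y = true ↔
    ∀ b < y.length, ∀ b' < y.length, b ≠ b' → adj x (y.getD b 0) (y.getD b' 0) = true := by
  unfold clq
  rw [decide_eq_true_iff]

theorem kil_iff (x : Str) (u y : List ℕ) : kil x u y = true ↔
    clq x y = true ∧ ∀ a ∈ u, ∀ b ∈ y, dom x a b = false := by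
  unfold kil
  rw [Bool.and_eq_true, decide_eq_true_iff]
  refine and_congr_right fun _ => ⟨fun h a ha b hb => ?_, fun h a ha b hb => ?_⟩
  · obtain ⟨i, hi, rfl⟩ := List.mem_iff_getElem.1 ha
    obtain ⟨j, hj, rfl⟩ := List.mem_iff_getElem.1 hb
    have := h i hi j hj
    rwa [List.getD_eq_getElem _ _ hi, List.getD_eq_getElem _ _ hj] at this
  · rw [List.getD_eq_getElem _ _ ha, List.getD_eq_getElem _ _ hb]
    exact h _ (List.getElem_mem ha) _ (List.getElem_mem hb)

theorem clq_nodup {x : Str} {y : List ℕ} (h : clq x y = true) : y.Nodup := by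
  rw [clq_iff] at h
  rw [List.nodup_iff_injective_getElem]
  intro b b' hbb
  by_contra hne
  have h1 := h b.1 b.2 b'.1 b'.2 (fun e => hne (Fin.ext e))
  rw [List.getD_eq_getElem _ _ b.2, List.getD_eq_getElem _ _ b'.2] at h1
  have h2 : y[b.1] = y[b'.1] := hbb
  rw [h2, adj_self] at h1
  exact Bool.false_ne_true h1

theorem clq_adj {x : Str} {y : List ℕ} (h : clq x y = true) {u v : ℕ} (hu : u ∈ y) (hv : v ∈ y)
    (huv : u ≠ v) : adj x u v = true := by
  rw [clq_iff] at h
  obtain ⟨i, hi, rfl⟩ := List.mem_iff_getElem.1 hu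
  obtain ⟨j, hj, rfl⟩ := List.mem_iff_getElem.1 hv
  have h1 := h i hi j hj (fun e => huv (by subst e; rfl))
  rwa [List.getD_eq_getElem _ _ hi, List.getD_eq_getElem _ _ hj] at h1

theorem yes_tup (x : Str) (k l : ℕ) (h : CDS x k l) :
    ∃ u ∈ tup k (nv x), ∀ y ∈ tup l (nv x), kil x u y = false := by
  obtain ⟨S, hS, hC⟩ := h
  refine ⟨S.toList.map Fin.val ++ List.replicate (k - S.card) 0, ?_, ?_⟩
  · rw [mem_tup]
    refine ⟨?_, ?_⟩
    · rw [List.length_append, List.length_map, Finset.length_toList, List.length_replicate]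
      omega
    · intro a ha
      rw [List.mem_append, List.mem_map, List.mem_replicate] at ha
      rcases ha with ⟨v, -, rfl⟩ | ⟨-, rfl⟩
      · exact v.2
      · exact nv_pos x
  · intro y hy
    rw [mem_tup] at hy
    by_contra hk
    rw [Bool.not_eq_false, kil_iff] at hk
    obtain ⟨hcl, hdom⟩ := hk
    have hnd := clq_nodup hcl
    -- the set of the entries
    let C : Finset (Fin (nv x)) := Finset.univ.filter fun v => v.1 ∈ y
    have hCcard : C.card = l := by
      have h1 : C.map Fin.valEmbedding = y.toFinset := by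
        ext a
        simp only [C, Finset.mem_map, Finset.mem_filter, Finset.mem_univ, true_and,
          Fin.valEmbedding_apply, List.mem_toFinset]
        constructor
        · rintro ⟨v, hv, rfl⟩
          exact hv
        · intro ha
          exact ⟨⟨a, hy.2 a ha⟩, ha, rfl⟩
      rw [← Finset.card_map Fin.valEmbedding, h1, List.toFinset_card_of_nodup hnd, hy.1]
    obtain ⟨u, hu, v, hv, huv⟩ := hC C hCcard (by
      intro u hu v hv huv
      simp only [C, Finset.mem_filter, Finset.mem_univ, true_and] at hu hv
      exact clq_adj hcl hu hv (fun e => huv (Fin.ext e)))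
    simp only [C, Finset.mem_filter, Finset.mem_univ, true_and] at hv
    have h2 := hdom u.1 (List.mem_append_left _ (List.mem_map.2 ⟨u, Finset.mem_toList.2 hu, rfl⟩))
      v.1 hv
    unfold dom at h2
    rw [Bool.or_eq_false_iff, decide_eq_false_iff_not] at h2
    rcases huv with huv | huv
    · exact h2.1 (by rw [huv])
    · rw [h2.2] at huv
      exact Bool.false_ne_true huv

theorem no_tup (x : Str) (k t l : ℕ) (h : ¬ CDS x (t * k) l) (us : List (List ℕ))
    (hus : us.length = t) (hu : ∀ u ∈ us, u ∈ tup k (nv x)) :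
    ∃ y ∈ tup l (nv x), ∀ u ∈ us, kil x u y = true := by
  let S : Finset (Fin (nv x)) := Finset.univ.filter fun v => v.1 ∈ us.flatten
  have hScard : S.card ≤ t * k := by
    have h1 : S.map Fin.valEmbedding ⊆ us.flatten.toFinset := by
      intro a ha
      simp only [S, Finset.mem_map, Finset.mem_filter, Finset.mem_univ, true_and,
        Fin.valEmbedding_apply] at ha
      obtain ⟨v, hv, rfl⟩ := ha
      exact List.mem_toFinset.2 hv
    have h2 : us.flatten.length ≤ t * k := by
      rw [List.length_flatten]
      have h3 : us.map List.length = List.replicate t k := by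
        rw [List.eq_replicate_iff]
        refine ⟨by rw [List.length_map, hus], ?_⟩
        intro b hb
        obtain ⟨u, hu', rfl⟩ := List.mem_map.1 hb
        exact (mem_tup.1 (hu u hu')).1
      rw [h3, List.sum_replicate, smul_eq_mul]
    calc S.card = (S.map Fin.valEmbedding).card := (Finset.card_map _).symm
      _ ≤ us.flatten.toFinset.card := Finset.card_le_card h1
      _ ≤ us.flatten.length := List.toFinset_card_le _
      _ ≤ t * k := h2
  unfold CDS at h
  push Not at h
  obtain ⟨C, hCc, hCcl, hCS⟩ := h S hScard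
  have hadj : ∀ a ∈ C.toList.map Fin.val, ∀ b ∈ C.toList.map Fin.val, a ≠ b →
      adj x a b = true := by
    intro a ha b hb hab
    obtain ⟨u, hu', rfl⟩ := List.mem_map.1 ha
    obtain ⟨v, hv', rfl⟩ := List.mem_map.1 hb
    exact hCcl u (Finset.mem_toList.1 hu') v (Finset.mem_toList.1 hv') (fun e => hab (by rw [e]))
  have hnd : (C.toList.map Fin.val).Nodup := (C.nodup_toList).map Fin.val_injective
  refine ⟨C.toList.map Fin.val, ?_, ?_⟩
  · rw [mem_tup]
    refine ⟨by rw [List.length_map, Finset.length_toList, hCc], ?_⟩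
    intro a ha
    obtain ⟨v, -, rfl⟩ := List.mem_map.1 ha
    exact v.2
  · intro u hu'
    rw [kil_iff]
    refine ⟨?_, ?_⟩
    · rw [clq_iff]
      intro b hb b' hb' hbb
      rw [List.getD_eq_getElem _ _ hb, List.getD_eq_getElem _ _ hb']
      refine hadj _ (List.getElem_mem hb) _ (List.getElem_mem hb') ?_
      intro e
      exact hbb ((List.Nodup.getElem_inj_iff hnd).1 e)
    · intro a ha b hb
      obtain ⟨v, hv', rfl⟩ := List.mem_map.1 hb
      have haN : a < nv x := (mem_tup.1 (hu u hu')).2 a ha
      have haS : (⟨a, haN⟩ : Fin (nv x)) ∈ S := by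
        simp only [S, Finset.mem_filter, Finset.mem_univ, true_and]
        exact List.mem_flatten.2 ⟨u, hu', ha⟩
      have h4 := hCS ⟨a, haN⟩ haS v (Finset.mem_toList.1 hv')
      unfold dom
      rw [Bool.or_eq_false_iff, decide_eq_false_iff_not]
      refine ⟨fun e => h4.1 (Fin.ext e), ?_⟩
      have h5 := h4.2
      exact Bool.eq_false_of_not_eq_true h5

end Pool.Agent.Lib.Pf91712c
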