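import Pool.Agent.Lib.Pf91712c.Tup

/-!
The greedy choice of tests (numbers instead of bits).

PLAN. As in Pf91712q/Greedy.lean (helper76), with an alphabet of `N` letters: for `p.length < l`,
`SSN z p = ∑ v ∈ range N, SSN z (p ++ [v]) ≤ N * SSN z (p ++ [v₀])` for the best letter `v₀`. After a block
of `l` steps from `z` with `l ∣ z.length` one reaches `z ++ y`, `y ∈ tup l N`, with
`SSN z [] ≤ N ^ l * cN z y ^ t`. By `hNo`, `c ^ t ≤ SSN z []` for the number `c` of the survivors
(`tup kk N` filtered by `inYN z`): every `t`-tuple of survivors is killed by a common `y ∈ tup l N`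
(`Fintype.piFinset`, `Finset.card_biUnion_le`). So `c ≤ D * cN z y`, the number of survivors of `z ++ y`
is `c - cN z y`, and `D * c' ≤ (D - 1) * c`. After `D * (kk * N + 1)` blocks nobody survives, because
`c 0 ≤ N ^ kk ≤ 2 ^ (kk * N)` and `D ^ D ≥ 2 * (D - 1) ^ D`. `inYN` is antitone in the list of tests.
-/

set_option autoImplicit false

namespace Pool.Agent.Lib.Pf91712c

namespace GreedyAux

section

variable (K : List ℕ → List ℕ → Bool) (l N kk t : ℕ)

/-- the tuples which survive the tests in `z` -/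
def Yf (z : List ℕ) : Finset (List ℕ) := (tup kk N).filter (fun u => inYN K l z u = true)

/-- the tuples which survive the tests in `z` and are killed by `y` -/
def Kf (z y : List ℕ) : Finset (List ℕ) :=
  (tup kk N).filter (fun u => inYN K l z u = true ∧ K u y = true)

theorem cN_eq (z y : List ℕ) : cN K l N kk z y = (Kf K l N kk z y).card := rfl

variable {l}

theorem piece (i : ℕ) (z q : List ℕ) (h : i * l + l ≤ z.length) :
    ((z ++ q).drop (i * l)).take l = (z.drop (i * l)).take l := by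
  rw [List.drop_append_of_le_length (by omega), List.take_append_of_le_length]
  rw [List.length_drop]; omega

theorem div_mul_bound (hl : 1 ≤ l) {n i : ℕ} (h : i < n / l) : i * l + l ≤ n := by
  have h1 : (i + 1) * l ≤ n := (Nat.le_div_iff_mul_le hl).1 h
  linarith [h1]

theorem inYN_anti (hl : 1 ≤ l) (z p u : List ℕ) (h : inYN K l (z ++ p) u = true) :
    inYN K l z u = true := by
  unfold inYN at h ⊢
  rw [decide_eq_true_eq] at h ⊢
  intro i hi
  have h1 := div_mul_bound hl hi
  have h2 := h i (lt_of_lt_of_le hi (Nat.div_le_div_right (by rw [List.length_append]; omega)))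
  rwa [piece i z p h1] at h2

theorem inYN_short (hl : 1 ≤ l) (j : ℕ) (z p : List ℕ) (hz : z.length = j * l)
    (hp : p.length < l) (u : List ℕ) : inYN K l (z ++ p) u = inYN K l z u := by
  have e1 : (z ++ p).length / l = j := by
    rw [List.length_append, hz]
    rw [Nat.add_comm, Nat.add_mul_div_right _ _ hl, Nat.div_eq_of_lt hp]
    omega
  have e2 : z.length / l = j := by
    rw [hz]; exact Nat.mul_div_cancel _ hl
  unfold inYN
  rw [e1, e2, decide_eq_decide]
  constructor
  · intro h i hi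
    have h1 : i * l + l ≤ z.length := div_mul_bound hl (by rw [e2]; exact hi)
    have h2 := h i hi
    rwa [piece i z p h1] at h2
  · intro h i hi
    have h1 : i * l + l ≤ z.length := div_mul_bound hl (by rw [e2]; exact hi)
    rw [piece i z p h1]
    exact h i hi

theorem inYN_block (hl : 1 ≤ l) (j : ℕ) (z v : List ℕ) (hz : z.length = j * l)
    (hv : v.length = l) (u : List ℕ) :
    inYN K l (z ++ v) u = true ↔ inYN K l z u = true ∧ K u v = false := by
  have e1 : (z ++ v).length / l = j + 1 := by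
    rw [List.length_append, hz, hv]
    have : j * l + l = (j + 1) * l := by ring
    rw [this]; exact Nat.mul_div_cancel _ hl
  have e2 : z.length / l = j := by
    rw [hz]; exact Nat.mul_div_cancel _ hl
  have e3 : ((z ++ v).drop (j * l)).take l = v := by
    rw [← hz, List.drop_left, ← hv, List.take_length]
  unfold inYN
  rw [e1, e2, decide_eq_true_eq, decide_eq_true_eq]
  constructor
  · intro h
    refine ⟨fun i hi => ?_, ?_⟩
    · have h1 : i * l + l ≤ z.length := div_mul_bound hl (by rw [e2]; exact hi)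
      have h2 := h i (by omega)
      rwa [piece i z v h1] at h2
    · have h2 := h j (by omega)
      rwa [e3] at h2
  · rintro ⟨h, h'⟩ i hi
    rcases Nat.lt_succ_iff_lt_or_eq.1 hi with hi | hi
    · have h1 : i * l + l ≤ z.length := div_mul_bound hl (by rw [e2]; exact hi)
      rw [piece i z v h1]
      exact h i hi
    · subst hi
      rw [e3]; exact h'

theorem lastN_short (hl : 1 ≤ l) (j : ℕ) (z p : List ℕ) (hz : z.length = j * l)
    (hp : p.length < l) : lastN l (z ++ p) = p := by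
  have e1 : (z ++ p).length / l = j := by
    rw [List.length_append, hz]
    rw [Nat.add_comm, Nat.add_mul_div_right _ _ hl, Nat.div_eq_of_lt hp]
    omega
  unfold lastN
  rw [e1, ← hz]; exact List.drop_left

theorem cN_short (hl : 1 ≤ l) (j : ℕ) (z p : List ℕ) (hz : z.length = j * l)
    (hp : p.length < l) (v : List ℕ) : cN K l N kk (z ++ p) v = cN K l N kk z v := by
  unfold cN
  simp only [inYN_short K hl j z p hz hp]

theorem SSN_short (hl : 1 ≤ l) (j : ℕ) (z p : List ℕ) (hz : z.length = j * l)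
    (hp : p.length < l) (q : List ℕ) : SSN K l N kk t (z ++ p) q = SSN K l N kk t z q := by
  unfold SSN
  simp only [cN_short K N kk hl j z p hz hp]

theorem SSN_split (z p : List ℕ) (hp : p.length < l) :
    SSN K l N kk t z p = ∑ v ∈ Finset.range N, SSN K l N kk t z (p ++ [v]) := by
  unfold SSN
  rw [Finset.sum_comm]
  refine Finset.sum_congr rfl (fun y hy => ?_)
  obtain ⟨hy1, hy2⟩ := mem_tup.1 hy
  have hlt : p.length < y.length := by omega
  have e : y.take (p.length + 1) = y.take p.length ++ [y[p.length]] :=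
    (List.take_append_getElem hlt).symm
  have hl' : ∀ v : ℕ, (p ++ [v]).length = p.length + 1 := fun v => by simp
  have hb : ∀ v : ℕ, (y.take (p ++ [v]).length = p ++ [v]) ↔
      (y.take p.length = p ∧ y[p.length] = v) := by
    intro v
    rw [hl', e]
    constructor
    · intro h
      have := List.append_inj' h rfl
      exact ⟨this.1, by simpa using this.2⟩
    · rintro ⟨h1, h2⟩
      rw [h1, h2]
  simp only [hb]
  by_cases h : y.take p.length = p
  · rw [if_pos h]
    simp only [h, true_and]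
    rw [Finset.sum_ite_eq]
    rw [if_pos (Finset.mem_range.2 (hy2 _ (List.getElem_mem hlt)))]
  · rw [if_neg h]
    simp only [h, false_and, if_false, Finset.sum_const_zero]

theorem run_block (hl : 1 ≤ l) (j : ℕ) (z : ℕ → List ℕ)
    (hs : ∀ i, ∃ v < N, z (i + 1) = z i ++ [v] ∧ ∀ v' < N,
      SSN K l N kk t (z i) (lastN l (z i) ++ [v']) ≤ SSN K l N kk t (z i) (lastN l (z i) ++ [v]))
    (i0 : ℕ) (hz : (z i0).length = j * l) :
    ∀ k, k ≤ l → ∃ p : List ℕ, p.length = k ∧ (∀ a ∈ p, a < N) ∧ z (i0 + k) = z i0 ++ p ∧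
      SSN K l N kk t (z i0) [] ≤ N ^ k * SSN K l N kk t (z i0) p := by
  intro k
  induction k with
  | zero => intro _; exact ⟨[], rfl, by simp, by simp, by simp⟩
  | succ k ih =>
    intro hk
    obtain ⟨p, hp, hpN, hfp, hS⟩ := ih (by omega)
    obtain ⟨v, hv, hzv, hbest⟩ := hs (i0 + k)
    have hpl : p.length < l := by omega
    rw [hfp, lastN_short hl j (z i0) p hz hpl] at hbest
    simp only [SSN_short K N kk t hl j (z i0) p hz hpl] at hbest
    refine ⟨p ++ [v], by simp [hp], ?_, ?_, ?_⟩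
    · intro a ha
      rw [List.mem_append, List.mem_singleton] at ha
      rcases ha with ha | ha
      · exact hpN a ha
      · rw [ha]; exact hv
    · rw [← add_assoc, hzv, hfp, List.append_assoc]
    · have h1 : SSN K l N kk t (z i0) p ≤ N * SSN K l N kk t (z i0) (p ++ [v]) := by
        rw [SSN_split K N kk t (z i0) p hpl]
        calc ∑ v' ∈ Finset.range N, SSN K l N kk t (z i0) (p ++ [v'])
            ≤ ∑ _v' ∈ Finset.range N, SSN K l N kk t (z i0) (p ++ [v]) :=
              Finset.sum_le_sum (fun v' hv' => hbest v' (Finset.mem_range.1 hv'))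
          _ = N * SSN K l N kk t (z i0) (p ++ [v]) := by
              rw [Finset.sum_const, Finset.card_range, smul_eq_mul]
      calc SSN K l N kk t (z i0) [] ≤ N ^ k * SSN K l N kk t (z i0) p := hS
        _ ≤ N ^ k * (N * SSN K l N kk t (z i0) (p ++ [v])) := Nat.mul_le_mul_left _ h1
        _ = N ^ (k + 1) * SSN K l N kk t (z i0) (p ++ [v]) := by ring

theorem SSN_full (z v : List ℕ) (hv : v ∈ tup l N) :
    SSN K l N kk t z v = cN K l N kk z v ^ t := by
  have hvl := (mem_tup.1 hv).1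
  unfold SSN
  rw [Finset.sum_eq_single v]
  · rw [List.take_length, if_pos rfl]
  · intro w hw hne
    have hw' : w.length = l := (mem_tup.1 hw).1
    rw [if_neg]
    rw [hvl, ← hw', List.take_length]
    exact hne
  · intro h
    exact absurd hv h

theorem SSN_nil (z : List ℕ) :
    SSN K l N kk t z [] = ∑ v ∈ tup l N, cN K l N kk z v ^ t := by
  unfold SSN
  simp

theorem SSN_ge (z : List ℕ)
    (hNo : ∀ us : List (List ℕ), us.length = t → (∀ u ∈ us, u ∈ tup kk N) →
      ∃ y ∈ tup l N, ∀ u ∈ us, K u y = true) :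
    (Yf K l N kk z).card ^ t ≤ SSN K l N kk t z [] := by
  classical
  rw [SSN_nil]
  have hcov : Fintype.piFinset (fun _ : Fin t => Yf K l N kk z) ⊆
      (tup l N).biUnion (fun v => Fintype.piFinset (fun _ : Fin t => Kf K l N kk z v)) := by
    intro g hg
    have hg1 := Fintype.mem_piFinset.1 hg
    have hlen : ∀ i, g i ∈ tup kk N := fun i => (Finset.mem_filter.1 (hg1 i)).1
    obtain ⟨v, hv, hA⟩ := hNo (List.ofFn g) (by simp) (by
      intro u hu
      rw [List.mem_ofFn] at hu
      obtain ⟨i, rfl⟩ := hu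
      exact hlen i)
    rw [Finset.mem_biUnion]
    refine ⟨v, hv, ?_⟩
    rw [Fintype.mem_piFinset]
    intro i
    unfold Kf
    rw [Finset.mem_filter]
    exact ⟨hlen i, (Finset.mem_filter.1 (hg1 i)).2,
      hA (g i) (by rw [List.mem_ofFn]; exact ⟨i, rfl⟩)⟩
  have h1 := Finset.card_le_card hcov
  have h2 := le_trans h1 Finset.card_biUnion_le
  simp only [Fintype.card_piFinset, Finset.prod_const, Finset.card_univ, Fintype.card_fin] at h2
  exact h2

theorem Yf_split (hl : 1 ≤ l) (j : ℕ) (z v : List ℕ) (hz : z.length = j * l)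
    (hv : v.length = l) :
    (Yf K l N kk (z ++ v)).card + cN K l N kk z v = (Yf K l N kk z).card := by
  classical
  rw [cN_eq]
  have e1 : Yf K l N kk (z ++ v) = (Yf K l N kk z).filter (fun u => ¬ K u v = true) := by
    ext u
    simp only [Yf, Finset.mem_filter, inYN_block K hl j z v hz hv, Bool.not_eq_true]
    tauto
  have e2 : Kf K l N kk z v = (Yf K l N kk z).filter (fun u => K u v = true) := by
    ext u
    simp only [Yf, Kf, Finset.mem_filter]
    tauto
  rw [e1, e2, add_comm]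
  exact Finset.card_filter_add_card_filter_not (fun u => K u v = true)

theorem one_block (hl : 1 ≤ l) (ht : 1 ≤ t) (d j : ℕ) (hND : N ^ l ≤ (d + 1) ^ t)
    (z : ℕ → List ℕ)
    (hs : ∀ i, ∃ v < N, z (i + 1) = z i ++ [v] ∧ ∀ v' < N,
      SSN K l N kk t (z i) (lastN l (z i) ++ [v']) ≤ SSN K l N kk t (z i) (lastN l (z i) ++ [v]))
    (hNo : ∀ us : List (List ℕ), us.length = t → (∀ u ∈ us, u ∈ tup kk N) →
      ∃ y ∈ tup l N, ∀ u ∈ us, K u y = true)
    (i0 : ℕ) (hz : (z i0).length = j * l) :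
    (z (i0 + l)).length = (j + 1) * l ∧
      (d + 1) * (Yf K l N kk (z (i0 + l))).card ≤ d * (Yf K l N kk (z i0)).card := by
  obtain ⟨v, hv, hvN, hfv, hS⟩ := run_block K N kk t hl j z hs i0 hz l le_rfl
  have hvt : v ∈ tup l N := mem_tup.2 ⟨hv, hvN⟩
  rw [SSN_full K N kk t (z i0) v hvt] at hS
  have h1 := SSN_ge K N kk t (z i0) hNo
  have h3 : (Yf K l N kk (z i0)).card ^ t ≤ ((d + 1) * cN K l N kk (z i0) v) ^ t := by
    rw [mul_pow]
    exact le_trans (le_trans h1 hS) (Nat.mul_le_mul_right _ hND)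
  have h4 : (Yf K l N kk (z i0)).card ≤ (d + 1) * cN K l N kk (z i0) v :=
    (Nat.pow_le_pow_iff_left (by omega)).1 h3
  have h5 := Yf_split K N kk hl j (z i0) v hz hv
  rw [hfv]
  refine ⟨by rw [List.length_append, hz, hv]; ring, ?_⟩
  nlinarith [h4, h5]

theorem many_blocks (hl : 1 ≤ l) (ht : 1 ≤ t) (d : ℕ) (hND : N ^ l ≤ (d + 1) ^ t)
    (z : ℕ → List ℕ) (h0 : z 0 = [])
    (hs : ∀ i, ∃ v < N, z (i + 1) = z i ++ [v] ∧ ∀ v' < N,
      SSN K l N kk t (z i) (lastN l (z i) ++ [v']) ≤ SSN K l N kk t (z i) (lastN l (z i) ++ [v]))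
    (hNo : ∀ us : List (List ℕ), us.length = t → (∀ u ∈ us, u ∈ tup kk N) →
      ∃ y ∈ tup l N, ∀ u ∈ us, K u y = true) (T : ℕ) :
    (z (T * l)).length = T * l ∧
      (d + 1) ^ T * (Yf K l N kk (z (T * l))).card ≤ d ^ T * (Yf K l N kk []).card := by
  induction T with
  | zero => simp [h0]
  | succ T ih =>
    obtain ⟨hlen, hc⟩ := ih
    obtain ⟨h1, h2⟩ := one_block K N kk t hl ht d T hND z hs hNo (T * l) hlen
    have e : (T + 1) * l = T * l + l := by ring
    rw [e]
    refine ⟨by rw [h1, e], ?_⟩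
    calc (d + 1) ^ (T + 1) * (Yf K l N kk (z (T * l + l))).card
        = (d + 1) ^ T * ((d + 1) * (Yf K l N kk (z (T * l + l))).card) := by ring
      _ ≤ (d + 1) ^ T * (d * (Yf K l N kk (z (T * l))).card) := Nat.mul_le_mul_left _ h2
      _ = d * ((d + 1) ^ T * (Yf K l N kk (z (T * l))).card) := by ring
      _ ≤ d * (d ^ T * (Yf K l N kk []).card) := Nat.mul_le_mul_left _ hc
      _ = d ^ (T + 1) * (Yf K l N kk []).card := by ring

end

theorem bern (d n : ℕ) : d ^ (n + 1) + (n + 1) * d ^ n ≤ (d + 1) ^ (n + 1) := by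
  induction n with
  | zero => simp
  | succ n ih =>
    calc d ^ (n + 1 + 1) + (n + 1 + 1) * d ^ (n + 1)
        ≤ (d + 1) * (d ^ (n + 1) + (n + 1) * d ^ n) := by
          have : (d + 1) * (d ^ (n + 1) + (n + 1) * d ^ n) =
            d ^ (n + 1 + 1) + (n + 1 + 1) * d ^ (n + 1) + (n + 1) * d ^ n := by ring
          rw [this]; omega
      _ ≤ (d + 1) * (d + 1) ^ (n + 1) := Nat.mul_le_mul_left _ ih
      _ = (d + 1) ^ (n + 1 + 1) := by ring

theorem two_mul_pow_le (d : ℕ) : 2 * d ^ (d + 1) ≤ (d + 1) ^ (d + 1) := by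
  have h := bern d d
  have h2 : (d + 1) * d ^ d = d ^ (d + 1) + d ^ d := by ring
  omega

theorem seq_ext (z : ℕ → List ℕ) (hs : ∀ i, ∃ v : ℕ, z (i + 1) = z i ++ [v]) (i0 n : ℕ) :
    ∃ p : List ℕ, z (i0 + n) = z i0 ++ p := by
  induction n with
  | zero => exact ⟨[], by simp⟩
  | succ n ih =>
    obtain ⟨p, hp⟩ := ih
    obtain ⟨v, hv⟩ := hs (i0 + n)
    exact ⟨p ++ [v], by rw [← add_assoc, hv, hp, List.append_assoc]⟩

end GreedyAux

open GreedyAux

theorem greedyN (K : List ℕ → List ℕ → Bool) (l N kk t D W : ℕ) (hl : 1 ≤ l) (hN : 1 ≤ N)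
    (ht : 1 ≤ t) (hD : 1 ≤ D) (hND : N ^ l ≤ D ^ t) (z : ℕ → List ℕ) (h0 : z 0 = [])
    (hs : ∀ i, ∃ v < N, z (i + 1) = z i ++ [v] ∧ ∀ v' < N,
      SSN K l N kk t (z i) (lastN l (z i) ++ [v']) ≤ SSN K l N kk t (z i) (lastN l (z i) ++ [v]))
    (hW : D * (kk * N + 1) * l ≤ W)
    (hNo : ∀ us : List (List ℕ), us.length = t → (∀ u ∈ us, u ∈ tup kk N) →
      ∃ y ∈ tup l N, ∀ u ∈ us, K u y = true) :
    ∀ u ∈ tup kk N, inYN K l (z W) u = false := by
  obtain ⟨d, rfl⟩ : ∃ d, D = d + 1 := ⟨D - 1, by omega⟩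
  have hM := (many_blocks K N kk t hl ht d hND z h0 hs hNo ((d + 1) * (kk * N + 1))).2
  have hY0 : (Yf K l N kk []).card ≤ 2 ^ (kk * N) := by
    calc (Yf K l N kk []).card ≤ (tup kk N).card := Finset.card_filter_le _ _
      _ = N ^ kk := card_tup kk N
      _ ≤ (2 ^ N) ^ kk := Nat.pow_le_pow_left (Nat.lt_two_pow_self).le _
      _ = 2 ^ (kk * N) := by rw [← pow_mul, mul_comm]
  have hzero : (Yf K l N kk (z ((d + 1) * (kk * N + 1) * l))).card = 0 := by
    by_contra hne
    have h1 : 1 ≤ (Yf K l N kk (z ((d + 1) * (kk * N + 1) * l))).card :=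
      Nat.one_le_iff_ne_zero.2 hne
    have h2 : (d + 1) ^ ((d + 1) * (kk * N + 1)) ≤
        d ^ ((d + 1) * (kk * N + 1)) * 2 ^ (kk * N) := by
      calc (d + 1) ^ ((d + 1) * (kk * N + 1)) = (d + 1) ^ ((d + 1) * (kk * N + 1)) * 1 := by ring
        _ ≤ (d + 1) ^ ((d + 1) * (kk * N + 1)) *
            (Yf K l N kk (z ((d + 1) * (kk * N + 1) * l))).card := Nat.mul_le_mul_left _ h1
        _ ≤ d ^ ((d + 1) * (kk * N + 1)) * (Yf K l N kk []).card := hM
        _ ≤ d ^ ((d + 1) * (kk * N + 1)) * 2 ^ (kk * N) := Nat.mul_le_mul_left _ hY0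
    have h3 : 2 ^ (kk * N + 1) * d ^ ((d + 1) * (kk * N + 1)) ≤
        (d + 1) ^ ((d + 1) * (kk * N + 1)) := by
      rw [pow_mul, pow_mul, ← mul_pow]
      exact Nat.pow_le_pow_left (two_mul_pow_le d) _
    have h4 : 0 < (d + 1) ^ ((d + 1) * (kk * N + 1)) := Nat.pow_pos (Nat.succ_pos d)
    have h5 : 2 ^ (kk * N + 1) * d ^ ((d + 1) * (kk * N + 1)) =
        2 * (d ^ ((d + 1) * (kk * N + 1)) * 2 ^ (kk * N)) := by
      ring
    omega
  intro u hu
  by_contra hne
  have hT : inYN K l (z W) u = true := by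
    rcases h : inYN K l (z W) u with _ | _
    · exact absurd h hne
    · rfl
  obtain ⟨p, hp⟩ := seq_ext z (fun i => by
    obtain ⟨v, -, hv, -⟩ := hs i
    exact ⟨v, hv⟩) ((d + 1) * (kk * N + 1) * l) (W - (d + 1) * (kk * N + 1) * l)
  rw [Nat.add_sub_cancel' hW] at hp
  rw [hp] at hT
  have hmem : u ∈ Yf K l N kk (z ((d + 1) * (kk * N + 1) * l)) := by
    unfold Yf
    rw [Finset.mem_filter]
    exact ⟨hu, inYN_anti K hl _ p u hT⟩
  rw [Finset.card_eq_zero] at hzero
  rw [hzero] at hmem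
  exact absurd hmem (Finset.notMem_empty u)

end Pool.Agent.Lib.Pf91712c
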