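import Pool.Agent.Lib.Pf91712c.Gen

/-!
The meaning of the formula (`cnf_sem`).
-/

set_option autoImplicit false

namespace Pool.Agent.Lib.Pf91712c

open Pool.Agent.Lib.Pa76659 (Str Lang)
open Pool.Agent.Lib.Pa76659G (pr on1 fst snd emp FPO)
open Pool.Agent.Lib.Pa76659G.PC

namespace SemB

theorem lenc_eq (l : List Str) : lenc l = l.flatMap (fun x => pr x []) := by
  induction l with
  | nil => rfl
  | cons x l ih =>
    rw [lenc, List.flatMap_cons, ← ih]
    simp [pr]

theorem lenc_append (l l' : List Str) : lenc (l ++ l') = lenc l ++ lenc l' := by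
  rw [lenc_eq, lenc_eq, lenc_eq, List.flatMap_append]

theorem lst_lenc' (l : List Str) : lst (lenc l) = l := by
  unfold lst
  refine List.ext_getElem ?_ ?_
  · simp [llen_lenc]
  · intro i h1 h2
    simp only [List.getElem_map, List.getElem_range, nth_lenc]
    rw [List.getD_eq_getElem?_getD, List.getElem?_eq_getElem h2, Option.getD_some]

/-- the list of the literals of a clause -/
def lits (n : ℕ) (pos neg : ℕ → Bool) : List Str :=
  (List.range n).flatMap (fun m => (if pos m then [true :: una m] else []) ++
    (if neg m then [false :: una m] else []))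

theorem clause_eq (n : ℕ) (pos neg : ℕ → Bool) : clause n pos neg = lenc (lits n pos neg) := by
  rw [lenc_eq, lits, clause, List.flatMap_assoc]
  congr 1
  funext m
  rw [List.flatMap_append]
  congr 1
  · by_cases h : pos m = true <;> simp [h]
  · by_cases h : neg m = true <;> simp [h]

theorem clause_sem' (S : Finset ℕ) (n : ℕ) (pos neg : ℕ → Bool) :
    (∃ w ∈ lst (clause n pos neg), litT S w) ↔
      ∃ m < n, (pos m = true ∧ m ∈ S) ∨ (neg m = true ∧ m ∉ S) := by
  rw [clause_eq, lst_lenc']
  have hT : ∀ m, litT S (true :: una m) ↔ m ∈ S := fun m => by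
    simp [litT, una]
  have hF : ∀ m, litT S (false :: una m) ↔ m ∉ S := fun m => by
    simp [litT, una]
  constructor
  · rintro ⟨w, hw, hl⟩
    rw [lits, List.mem_flatMap] at hw
    obtain ⟨m, hm, hw⟩ := hw
    rw [List.mem_range] at hm
    refine ⟨m, hm, ?_⟩
    rw [List.mem_append] at hw
    rcases hw with hw | hw
    · by_cases h : pos m = true
      · simp only [h, if_true, List.mem_singleton] at hw
        subst hw
        exact Or.inl ⟨h, (hT m).1 hl⟩
      · simp [h] at hw
    · by_cases h : neg m = true
      · simp only [h, if_true, List.mem_singleton] at hw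
        subst hw
        exact Or.inr ⟨h, (hF m).1 hl⟩
      · simp [h] at hw
  · rintro ⟨m, hm, h | h⟩
    · refine ⟨true :: una m, ?_, (hT m).2 h.2⟩
      rw [lits, List.mem_flatMap]
      exact ⟨m, List.mem_range.2 hm, by simp [h.1]⟩
    · refine ⟨false :: una m, ?_, (hF m).2 h.2⟩
      rw [lits, List.mem_flatMap]
      exact ⟨m, List.mem_range.2 hm, by simp [h.1]⟩

theorem llen_ze (z : List ℕ) : llen (ze z) = z.length := by
  rw [ze, llen_lenc, List.length_map]

theorem ent_ze (z : List ℕ) (i : ℕ) : ent (ze z) i = z.getD i 0 := by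
  rw [ent, ze, nth_lenc, List.getD_eq_getElem?_getD, List.getD_eq_getElem?_getD,
    List.getElem?_map]
  cases z[i]? <;> simp [una]

theorem getD_drop (z : List ℕ) (k b : ℕ) : (z.drop k).getD b 0 = z.getD (k + b) 0 := by
  rw [List.getD_eq_getElem?_getD, List.getD_eq_getElem?_getD, List.getElem?_drop]

theorem getD_take (z : List ℕ) (l b : ℕ) (h : b < l) : (z.take l).getD b 0 = z.getD b 0 := by
  rw [List.getD_eq_getElem?_getD, List.getD_eq_getElem?_getD, List.getElem?_take_of_lt h]

theorem getD_blk (z : List ℕ) (l k b : ℕ) (h : b < l) :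
    ((z.drop k).take l).getD b 0 = z.getD (k + b) 0 := by
  rw [getD_take _ _ _ h, getD_drop]

theorem len_blk (z : List ℕ) (l i : ℕ) (h : i < z.length / l) :
    ((z.drop (i * l)).take l).length = l := by
  rw [List.length_take, List.length_drop]
  have h1 : (i + 1) * l ≤ z.length :=
    le_trans (Nat.mul_le_mul_right l h) (Nat.div_mul_le_self _ _)
  have h2 : (i + 1) * l = i * l + l := by ring
  omega

theorem clqS_ze (x : Str) (z : List ℕ) (l i : ℕ) (h : i < z.length / l) :
    clqS x (ze z) l (i * l) = clq x ((z.drop (i * l)).take l) := by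
  unfold clqS clq
  rw [len_blk z l i h]
  rw [decide_eq_decide]
  refine forall_congr' fun b => forall_congr' fun hb => ?_
  rw [decide_eq_true_eq]
  refine forall_congr' fun b' => forall_congr' fun hb' => ?_
  rw [getD_blk z l (i * l) b hb, getD_blk z l (i * l) b' hb', ent_ze, ent_ze, Bool.or_eq_true,
    decide_eq_true_eq]
  tauto

theorem exdS_ze (x : Str) (z : List ℕ) (l i v : ℕ) :
    exdS x (ze z) l (i * l) v = true ↔
      ∃ b < l, dom x v (((z.drop (i * l)).take l).getD b 0) = true := by
  unfold exdS
  rw [decide_eq_true_eq]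
  refine exists_congr fun b => ?_
  constructor
  · rintro ⟨hb, h⟩
    refine ⟨hb, ?_⟩
    rw [getD_blk z l (i * l) b hb]
    rwa [ent_ze] at h
  · rintro ⟨hb, h⟩
    refine ⟨hb, ?_⟩
    rw [getD_blk z l (i * l) b hb] at h
    rwa [ent_ze]

end SemB

open SemB in
theorem cnf_sem (x : Str) (kk l t : ℕ) (md : Bool) (z : List ℕ) (hl : 1 ≤ l) (ht : 1 ≤ t)
    (S : Finset ℕ) (hS : S ⊆ Finset.range ((l + t * kk) * nv x)) :
    (∀ C ∈ lst (snd (cnf x (ze z) kk l t md)), ∃ w ∈ lst C, litT S w) ↔ Sat x kk l t md z S := by
  set B : ℕ := l + t * kk with hB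
  have hnB : nB kk l t = B := rfl
  set n : ℕ := B * nv x with hn
  have hNpos : 0 < nv x := Nat.succ_pos _
  have hBpos : 0 < B := by omega
  have hnpos : 0 < n := Nat.mul_pos hBpos hNpos
  have hSn : ∀ m ∈ S, m < n := fun m hm => Finset.mem_range.1 (hS hm)
  -- the list of the clauses
  have hlst : lst (snd (cnf x (ze z) kk l t md)) =
      ((List.range B).map (fun β => clause n (posA x (ze z) l md β) (fun _ => false))) ++
      ((if md then [] else ((List.range (n * B)).map (fun i =>
        clause n (posB x l B i) (fun m => decide (m = i / B))))) ++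
      ((List.range (z.length / l * t)).map (fun i =>
        clause n (posC x (ze z) kk l t i) (fun _ => !clqS x (ze z) l (i / t * l))))) := by
    rw [cnf, snd_pr, clauses, hnB, llen_ze]
    have hif : (if md then ([] : Str) else lenc ((List.range (n * B)).map (fun i =>
        clause n (posB x l B i) (fun m => decide (m = i / B))))) =
        lenc (if md then [] else ((List.range (n * B)).map (fun i =>
        clause n (posB x l B i) (fun m => decide (m = i / B))))) := by
      cases md <;> simp
    rw [← hn, hif, ← lenc_append, ← lenc_append, lst_lenc']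
  rw [hlst]
  have hsplit : (∀ C ∈ ((List.range B).map (fun β => clause n (posA x (ze z) l md β)
      (fun _ => false))) ++
      ((if md then [] else ((List.range (n * B)).map (fun i =>
        clause n (posB x l B i) (fun m => decide (m = i / B))))) ++
      ((List.range (z.length / l * t)).map (fun i =>
        clause n (posC x (ze z) kk l t i) (fun _ => !clqS x (ze z) l (i / t * l))))),
        ∃ w ∈ lst C, litT S w) ↔
      (∀ β < B, ∃ m < n, posA x (ze z) l md β m = true ∧ m ∈ S) ∧
      (md = false → ∀ i < n * B, ∃ m < n, (posB x l B i m = true ∧ m ∈ S) ∨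
        (m = i / B ∧ m ∉ S)) ∧
      (∀ i < z.length / l * t, ∃ m < n, (posC x (ze z) kk l t i m = true ∧ m ∈ S) ∨
        (clqS x (ze z) l (i / t * l) = false ∧ m ∉ S)) := by
    rw [List.forall_mem_append, List.forall_mem_append]
    refine and_congr ?_ (and_congr ?_ ?_)
    · rw [List.forall_mem_map]
      refine forall_congr' fun β => ?_
      rw [List.mem_range, clause_sem']
      simp
    · cases md with
      | true => simp
      | false =>
        simp only [Bool.false_eq_true, if_false, forall_true_left]
        rw [List.forall_mem_map]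
        refine forall_congr' fun i => ?_
        rw [List.mem_range, clause_sem']
        simp
    · rw [List.forall_mem_map]
      refine forall_congr' fun i => ?_
      rw [List.mem_range, clause_sem']
      simp
  rw [hsplit]
  unfold Sat
  rw [← hB]
  refine and_congr ?_ (and_congr ?_ ?_)
  · -- type A
    refine forall_congr' fun β => forall_congr' fun hβ => ?_
    have hA : ∀ m, posA x (ze z) l md β m = true ↔ (m / nv x = β ∧
        (md = false → β < (lastN l z).length → m % nv x = (lastN l z).getD β 0)) := by
      intro m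
      unfold posA lastN
      rw [llen_ze, ent_ze, getD_drop, List.length_drop, Bool.and_eq_true, decide_eq_true_eq,
        Bool.or_eq_true, Bool.or_eq_true, Bool.not_eq_true', decide_eq_false_iff_not,
        decide_eq_true_eq]
      refine and_congr Iff.rfl ?_
      have e1 : (z.length / l * l + β < z.length) ↔ (β < z.length - z.length / l * l) := by omega
      rw [e1]
      cases md with
      | true => simp
      | false =>
        simp only [Bool.false_eq_true, false_or, forall_true_left]
        constructor
        · rintro (h | h) h2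
          · exact absurd h2 h
          · exact h
        · intro h
          by_cases h2 : β < z.length - z.length / l * l
          · exact Or.inr (h h2)
          · exact Or.inl h2
    constructor
    · rintro ⟨m, hm, h1, h2⟩
      exact ⟨m, h2, (hA m).1 h1⟩
    · rintro ⟨m, hm, h⟩
      exact ⟨m, hSn m hm, (hA m).2 h, hm⟩
  · -- type B
    refine forall_congr' fun hmd => ?_
    constructor
    · intro h m0 hm0 β1 hβ1
      have hm0n := hSn m0 hm0
      have hi : m0 * B + β1 < n * B := by
        have : (m0 + 1) * B ≤ n * B := Nat.mul_le_mul_right B hm0n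
        have e : (m0 + 1) * B = m0 * B + B := by ring
        omega
      have hd : (m0 * B + β1) / B = m0 := by
        rw [Nat.mul_comm, Nat.mul_add_div hBpos, Nat.div_eq_of_lt hβ1, Nat.add_zero]
      have hr : (m0 * B + β1) % B = β1 := by
        rw [Nat.mul_comm, Nat.mul_add_mod, Nat.mod_eq_of_lt hβ1]
      obtain ⟨m, hm, h1 | h1⟩ := h _ hi
      · refine ⟨m, h1.2, ?_⟩
        have := h1.1
        unfold posB at this
        rw [hd, hr, Bool.and_eq_true, decide_eq_true_eq] at this
        exact this
      · rw [hd] at h1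
        exact absurd (h1.1 ▸ hm0) h1.2
    · intro h i hi
      have hdn : i / B < n := (Nat.div_lt_iff_lt_mul hBpos).2 hi
      have hr : i % B < B := Nat.mod_lt _ hBpos
      by_cases hmem : i / B ∈ S
      · obtain ⟨m1, hm1, h1, h2⟩ := h _ hmem _ hr
        refine ⟨m1, hSn m1 hm1, Or.inl ⟨?_, hm1⟩⟩
        unfold posB
        rw [Bool.and_eq_true, decide_eq_true_eq]
        exact ⟨h1, h2⟩
      · exact ⟨i / B, hdn, Or.inr ⟨rfl, hmem⟩⟩
  · -- type C
    have hC : ∀ i' < z.length / l, ∀ j < t, ∀ m, (clqS x (ze z) l (i' * l) = true) →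
        (posC x (ze z) kk l t (i' * t + j) m = true ↔ l + j * kk ≤ m / nv x ∧
          m / nv x < l + (j + 1) * kk ∧
          ∃ b < l, dom x (m % nv x) (((z.drop (i' * l)).take l).getD b 0) = true) := by
      intro i' hi' j hj m hcl
      have hd : (i' * t + j) / t = i' := by
        rw [Nat.mul_comm, Nat.mul_add_div ht, Nat.div_eq_of_lt hj, Nat.add_zero]
      have hr : (i' * t + j) % t = j := by
        rw [Nat.mul_comm, Nat.mul_add_mod, Nat.mod_eq_of_lt hj]
      unfold posC
      rw [hd, hr, hcl, Bool.not_true, Bool.false_or, Bool.and_eq_true, Bool.and_eq_true,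
        decide_eq_true_eq, decide_eq_true_eq, exdS_ze]
    constructor
    · intro h i' hi' hcl j hj
      rw [← clqS_ze x z l i' hi'] at hcl
      have hi : i' * t + j < z.length / l * t := by
        have : (i' + 1) * t ≤ z.length / l * t := Nat.mul_le_mul_right t hi'
        have e : (i' + 1) * t = i' * t + t := by ring
        omega
      have hd : (i' * t + j) / t = i' := by
        rw [Nat.mul_comm, Nat.mul_add_div ht, Nat.div_eq_of_lt hj, Nat.add_zero]
      obtain ⟨m, hm, h1 | h1⟩ := h _ hi
      · exact ⟨m, h1.2, (hC i' hi' j hj m hcl).1 h1.1⟩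
      · rw [hd, hcl] at h1
        exact absurd h1.1 (by simp)
    · intro h i hi
      have hdq : i / t < z.length / l := (Nat.div_lt_iff_lt_mul ht).2 hi
      have hr : i % t < t := Nat.mod_lt _ ht
      have hi2 : i / t * t + i % t = i := Nat.div_add_mod' i t
      by_cases hcl : clqS x (ze z) l (i / t * l) = true
      · have hcl' := hcl
        rw [clqS_ze x z l _ hdq] at hcl'
        obtain ⟨m, hm, hm2⟩ := h _ hdq hcl' _ hr
        refine ⟨m, hSn m hm, Or.inl ⟨?_, hm⟩⟩
        have := (hC (i / t) hdq (i % t) hr m hcl).2 hm2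
        rwa [hi2] at this
      · have hcl' : clqS x (ze z) l (i / t * l) = false := by simpa using hcl
        by_cases h0 : (0 : ℕ) ∈ S
        · refine ⟨0, hnpos, Or.inl ⟨?_, h0⟩⟩
          unfold posC
          rw [hcl']
          simp
        · exact ⟨0, hnpos, Or.inr ⟨hcl', h0⟩⟩

theorem wsat_cnf (x : Str) (kk l t : ℕ) (md : Bool) (z : List ℕ) (hl : 1 ≤ l) (ht : 1 ≤ t) (k : ℕ) :
    wsat (cnf x (ze z) kk l t md) k =
      Nat.card {S : Finset ℕ // S ⊆ Finset.range ((l + t * kk) * nv x) ∧ S.card = k ∧
        Sat x kk l t md z S} := by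
  have h1 : (fst (cnf x (ze z) kk l t md)).length = (l + t * kk) * nv x := by
    rw [cnf, fst_pr, una, List.length_replicate, nB]
  unfold wsat
  refine Nat.card_congr (Equiv.subtypeEquivRight fun S => ?_)
  rw [h1]
  constructor
  · rintro ⟨a, b, c⟩
    exact ⟨a, b, (cnf_sem x kk l t md z hl ht S a).1 c⟩
  · rintro ⟨a, b, c⟩
    exact ⟨a, b, (cnf_sem x kk l t md z hl ht S a).2 c⟩

end Pool.Agent.Lib.Pf91712c
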