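import Pool.Agent.Lib.Pf91712c.Tup

/-!
The choice of the next number.

PLAN. Case `(z.length + 1) % l ≠ 0`: then `lastN l (z ++ [v]) = lastN l z ++ [v]`,
`(z ++ [v]).length / l = z.length / l`, `inYN K l (z ++ [v]) = inYN K l z`, so
`SSN ... (z ++ [v]) (lastN l (z ++ [v])) = SSN ... z (lastN l z ++ [v])`.
Case `(z.length + 1) % l = 0`: `(lastN l z ++ [v]).length = l`; only `y = lastN l z ++ [v]` contributes to
`SSN ... z (lastN l z ++ [v])`, and it is in `tup l (nv x)` (entries of `z` are `< nv x`), so the sum is
`cN ... z (lastN l z ++ [v]) ^ t`. And `inYN K l (z ++ [v]) u = (inYN K l z u && !K u (lastN l z ++ [v]))`,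
so `surv z = surv (z ++ [v]) + cN ... z (lastN l z ++ [v])`. So `surv (z ++ [v]) ≤ surv (z ++ [w])` gives
`cN ... (lastN l z ++ [w]) ≤ cN ... (lastN l z ++ [v])`.
-/

set_option autoImplicit false

namespace Pool.Agent.Lib.Pf91712c

open Pool.Agent.Lib.Pa76659 (Str)

/-- the number of the surviving tuples -/
def surv (x : Str) (l kk : ℕ) (z : List ℕ) : ℕ :=
  ((tup kk (nv x)).filter (fun u => inYN (kil x) l z u = true)).card

section

variable (K : List ℕ → List ℕ → Bool) (l : ℕ)

theorem lastN_length (z : List ℕ) : (lastN l z).length = z.length % l := by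
  unfold lastN
  rw [List.length_drop]
  have := Nat.div_add_mod z.length l
  rw [mul_comm] at this
  omega

theorem block_append (z : List ℕ) (v i : ℕ) (hi : i < z.length / l) :
    ((z ++ [v]).drop (i * l)).take l = (z.drop (i * l)).take l := by
  have h1 : (i + 1) * l ≤ z.length / l * l := Nat.mul_le_mul_right l hi
  have h2 : z.length / l * l ≤ z.length := Nat.div_mul_le_self _ _
  rw [add_mul, one_mul] at h1
  rw [List.drop_append_of_le_length (by omega), List.take_append_of_le_length]
  rw [List.length_drop]
  omega

theorem inYN_append_of_ne (hl : 1 ≤ l) (z : List ℕ) (v : ℕ) (h : (z.length + 1) % l ≠ 0)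
    (u : List ℕ) : inYN K l (z ++ [v]) u = inYN K l z u := by
  have hd : (z.length + 1) / l = z.length / l := by
    rw [Nat.succ_div, if_neg (fun hc => h (Nat.mod_eq_zero_of_dvd hc)), add_zero]
  unfold inYN
  have e : (∀ i < (z ++ [v]).length / l, K u (((z ++ [v]).drop (i * l)).take l) = false) ↔
      (∀ i < z.length / l, K u ((z.drop (i * l)).take l) = false) := by
    rw [List.length_append, List.length_singleton, hd]
    constructor
    · intro H i hi
      have := H i hi
      rwa [block_append l z v i hi] at this
    · intro H i hi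
      rw [block_append l z v i hi]
      exact H i hi
  exact decide_eq_decide.2 e

theorem lastN_append_of_ne (z : List ℕ) (v : ℕ) (h : (z.length + 1) % l ≠ 0) :
    lastN l (z ++ [v]) = lastN l z ++ [v] := by
  have hd : (z.length + 1) / l = z.length / l := by
    rw [Nat.succ_div, if_neg (fun hc => h (Nat.mod_eq_zero_of_dvd hc)), add_zero]
  unfold lastN
  rw [List.length_append, List.length_singleton, hd,
    List.drop_append_of_le_length (Nat.div_mul_le_self _ _)]

theorem last_full (hl : 1 ≤ l) (z : List ℕ) (v : ℕ) (h : (z.length + 1) % l = 0) :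
    (lastN l z ++ [v]).length = l := by
  rw [List.length_append, List.length_singleton, lastN_length]
  have h1 := Nat.mod_lt z.length (show 0 < l by omega)
  have h2 : (z.length % l + 1) % l = 0 := by rw [Nat.mod_add_mod]; exact h
  by_contra hc
  have h3 : z.length % l + 1 < l := by omega
  rw [Nat.mod_eq_of_lt h3] at h2
  omega

theorem inYN_append_of_eq (hl : 1 ≤ l) (z : List ℕ) (v : ℕ) (h : (z.length + 1) % l = 0)
    (u : List ℕ) :
    inYN K l (z ++ [v]) u = true ↔ (inYN K l z u = true ∧ ¬ K u (lastN l z ++ [v]) = true) := by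
  have hd : (z.length + 1) / l = z.length / l + 1 := by
    rw [Nat.succ_div, if_pos (Nat.dvd_of_mod_eq_zero h)]
  have hlast : ((z ++ [v]).drop (z.length / l * l)).take l = lastN l z ++ [v] := by
    rw [List.drop_append_of_le_length (Nat.div_mul_le_self _ _)]
    show (lastN l z ++ [v]).take l = _
    rw [List.take_of_length_le (last_full l hl z v h).le]
  unfold inYN
  rw [decide_eq_true_iff, decide_eq_true_iff, List.length_append, List.length_singleton, hd,
    Bool.not_eq_true]
  constructor
  · intro H
    constructor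
    · intro i hi
      have := H i (by omega)
      rwa [block_append l z v i hi] at this
    · have := H (z.length / l) (by omega)
      rwa [hlast] at this
  · rintro ⟨H1, H2⟩ i hi
    rcases Nat.lt_or_ge i (z.length / l) with h3 | h3
    · rw [block_append l z v i h3]
      exact H1 i h3
    · have : i = z.length / l := by omega
      rw [this, hlast]
      exact H2

end

theorem surv_split (x : Str) (l kk : ℕ) (hl : 1 ≤ l) (z : List ℕ) (v : ℕ)
    (h : (z.length + 1) % l = 0) :
    surv x l kk z = surv x l kk (z ++ [v]) + cN (kil x) l (nv x) kk z (lastN l z ++ [v]) := by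
  unfold surv cN
  have e := Finset.card_filter_add_card_filter_not
    (s := (tup kk (nv x)).filter (fun u => inYN (kil x) l z u = true))
    (fun u => kil x u (lastN l z ++ [v]) = true)
  rw [Finset.filter_filter, Finset.filter_filter] at e
  rw [← e, add_comm]
  congr 1
  apply congrArg
  apply Finset.filter_congr
  intro u _
  exact (inYN_append_of_eq (kil x) l hl z v h u).symm

theorem SSN_full (K : List ℕ → List ℕ → Bool) (l N kk t : ℕ) (z p : List ℕ) (hp : p ∈ tup l N) :
    SSN K l N kk t z p = cN K l N kk z p ^ t := by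
  unfold SSN
  rw [Finset.sum_eq_single p]
  · rw [if_pos (List.take_of_length_le le_rfl)]
  · intro y hy hne
    rw [if_neg]
    intro hc
    apply hne
    rw [List.take_of_length_le] at hc
    · exact hc
    · rw [(mem_tup.1 hy).1, (mem_tup.1 hp).1]
  · intro hc
    exact absurd hp hc

theorem next_spec (x : Str) (l kk t : ℕ) (hl : 1 ≤ l) (ht : 1 ≤ t) (z : List ℕ)
    (hz : ∀ a ∈ z, a < nv x) (v : ℕ) (hv : v < nv x)
    (h1 : (z.length + 1) % l = 0 → ∀ w < nv x, surv x l kk (z ++ [v]) ≤ surv x l kk (z ++ [w]))
    (h2 : (z.length + 1) % l ≠ 0 → ∀ w < nv x,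
      SSN (kil x) l (nv x) kk t (z ++ [w]) (lastN l (z ++ [w])) ≤
        SSN (kil x) l (nv x) kk t (z ++ [v]) (lastN l (z ++ [v]))) :
    ∀ w < nv x, SSN (kil x) l (nv x) kk t z (lastN l z ++ [w]) ≤
      SSN (kil x) l (nv x) kk t z (lastN l z ++ [v]) := by
  intro w hw
  by_cases h : (z.length + 1) % l = 0
  · have hmem : ∀ a < nv x, lastN l z ++ [a] ∈ tup l (nv x) := by
      intro a ha
      rw [mem_tup]
      refine ⟨last_full l hl z a h, ?_⟩
      intro b hb
      rw [List.mem_append, List.mem_singleton] at hb
      rcases hb with hb | hb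
      · exact hz b (List.mem_of_mem_drop hb)
      · rw [hb]; exact ha
    rw [SSN_full _ _ _ _ _ _ _ (hmem w hw), SSN_full _ _ _ _ _ _ _ (hmem v hv)]
    apply Nat.pow_le_pow_left
    have e1 := surv_split x l kk hl z v h
    have e2 := surv_split x l kk hl z w h
    have e3 := h1 h w hw
    omega
  · have key : ∀ a, SSN (kil x) l (nv x) kk t (z ++ [a]) (lastN l (z ++ [a])) =
        SSN (kil x) l (nv x) kk t z (lastN l z ++ [a]) := by
      intro a
      rw [lastN_append_of_ne l z a h]
      unfold SSN cN
      simp only [inYN_append_of_ne (kil x) l hl z a h]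
    have := h2 h w hw
    rwa [key, key] at this

end Pool.Agent.Lib.Pf91712c
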