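import Pool.Agent.Lib.Pf91712c.Alg
import Pool.Agent.Lib.Pf91712c.Sem
import Pool.Agent.Lib.Pf91712c.Step
import Pool.Agent.Lib.Pf91712c.CntN
import Pool.Agent.Lib.Pf91712c.GreedyN
import Pool.Agent.Lib.Pf91712c.Dom
import Pool.Agent.Lib.Pf91712q.Bar

/-!
The approximation of clique dominating sets by fpt Turing reductions to `#W[2]`.
-/

set_option autoImplicit false

namespace Pool.Agent.Lib.Pf91712c

open Pool.Agent.Lib.Pa76659 (Str Lang PO Prog Halts accepts inp)
open Pool.Agent.Lib.Pa76659G (pr on1 fst snd emp FPO)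
open Pool.Agent.Lib.Pa76659G.PC
open Pool.Agent.Lib.Pf91712 (bitsOf)
open Pool.Agent.Lib.Pf91712q (FptTuring unary_una)

theorem bt_eq (F : Str → ℕ → ℕ) (x : Str) (k : ℕ) (md : Bool) (zs : Str) (i : ℕ) :
    bt F x k md zs i = (F (pr x (md :: zs)) k).testBit i := by
  rw [bt, qC, bitsOf, unary_una, unary_una]
  simp only [le_refl, decide_true, Bool.true_and]

theorem ext_ze (z : List ℕ) (v : ℕ) : ext (ze z) v = ze (z ++ [v]) := by
  have key : ∀ l : List Str, ∀ w : Str, lenc l ++ pr w [] = lenc (l ++ [w]) := by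
    intro l w
    induction l with
    | nil => rfl
    | cons a l ih =>
      rw [List.cons_append, lenc_cons, lenc_cons, ← ih]
      simp [pr, List.append_assoc]
  rw [ext, ze, ze, List.map_append, key]
  rfl

theorem llen_ze (z : List ℕ) : llen (ze z) = z.length := by
  rw [ze, llen_lenc, List.length_map]

section

variable (kk ll t : ℕ → ℕ) (x : Str) (k : ℕ) (hl1 : 1 ≤ ll k) (ht1 : 1 ≤ t k)

include hl1 ht1

theorem FC_eq (md : Bool) (z : List ℕ) : FC kk ll t (pr x (md :: ze z)) k =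
    Nat.card {S : Finset ℕ // S ⊆ Finset.range ((ll k + t k * kk k) * nv x) ∧
      S.card = ll k + t k * kk k ∧ Sat x (kk k) (ll k) (t k) md z S} := by
  rw [FC, RC_eq kk ll t x (ze z) md k hl1 ht1, wsat_cnf x (kk k) (ll k) (t k) md z hl1 ht1]

theorem FC_lt (md : Bool) (z : List ℕ) :
    FC kk ll t (pr x (md :: ze z)) k < 2 ^ LC kk ll t x k := by
  rw [FC_eq kk ll t x k hl1 ht1]
  have h1 : Nat.card {S : Finset ℕ // S ⊆ Finset.range ((ll k + t k * kk k) * nv x) ∧
      S.card = ll k + t k * kk k ∧ Sat x (kk k) (ll k) (t k) md z S} ≤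
      Nat.card {S : Finset ℕ // S ∈ (Finset.range ((ll k + t k * kk k) * nv x)).powerset} :=
    Nat.card_le_card_of_injective
      (fun S => ⟨S.1, Finset.mem_powerset.2 S.2.1⟩)
      (fun S S' h => Subtype.ext (congrArg (fun T => T.1) h))
  have h2 : Nat.card {S : Finset ℕ // S ∈
      (Finset.range ((ll k + t k * kk k) * nv x)).powerset} =
      2 ^ ((ll k + t k * kk k) * nv x) := by
    rw [Nat.card_eq_fintype_card, Fintype.card_coe, Finset.card_powerset, Finset.card_range]
  rw [h2] at h1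
  rw [LC, pow_succ]
  have := Nat.two_pow_pos ((ll k + t k * kk k) * nv x)
  omega

theorem FC_false (z : List ℕ) : FC kk ll t (pr x (false :: ze z)) k =
    SSN (kil x) (ll k) (nv x) (kk k) (t k) z (lastN (ll k) z) := by
  rw [FC_eq kk ll t x k hl1 ht1, count_false x (kk k) (ll k) (t k) z hl1 ht1]

theorem FC_true (z : List ℕ) : FC kk ll t (pr x (true :: ze z)) k =
    nv x ^ ll k * surv x (ll k) (kk k) z ^ t k := by
  rw [FC_eq kk ll t x k hl1 ht1, count_true x (kk k) (ll k) (t k) z hl1]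
  rfl

theorem leB_iff (md : Bool) (z z' : List ℕ) :
    leB (FC kk ll t) x k md (LC kk ll t x k) (ze z) (ze z') = true ↔
      FC kk ll t (pr x (md :: ze z)) k ≤ FC kk ll t (pr x (md :: ze z')) k := by
  rw [le_bits _ _ _ (FC_lt kk ll t x k hl1 ht1 md z) (FC_lt kk ll t x k hl1 ht1 md z'), leB,
    decide_eq_true_eq]
  refine forall_congr' fun i => forall_congr' fun _ => ?_
  rw [Bool.or_eq_true, Bool.not_eq_true', Bool.and_eq_false_iff, bt_eq, bt_eq, decide_eq_true_eq,
    Bool.not_eq_false']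
  have e : (∃ j < LC kk ll t x k, (decide (i < j) && (!bt (FC kk ll t) x k md (ze z) j &&
      bt (FC kk ll t) x k md (ze z') j)) = true) ↔ ∃ j < LC kk ll t x k, i < j ∧
      (FC kk ll t (pr x (md :: ze z)) k).testBit j = false ∧
      (FC kk ll t (pr x (md :: ze z')) k).testBit j = true := by
    refine exists_congr fun j => and_congr_right fun _ => ?_
    rw [Bool.and_eq_true, Bool.and_eq_true, decide_eq_true_eq, Bool.not_eq_true', bt_eq, bt_eq]
  rw [e]
  cases h1 : (FC kk ll t (pr x (md :: ze z)) k).testBit i <;>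
    cases h2 : (FC kk ll t (pr x (md :: ze z')) k).testBit i <;> simp

theorem gd_iff (cp : Bool) (z : List ℕ) (v : ℕ) :
    gd (FC kk ll t) x k (LC kk ll t x k) (nv x) cp (ze z) v = true ↔
      (cp = true → ∀ w < nv x, surv x (ll k) (kk k) (z ++ [v]) ≤ surv x (ll k) (kk k) (z ++ [w])) ∧
      (cp = false → ∀ w < nv x,
        SSN (kil x) (ll k) (nv x) (kk k) (t k) (z ++ [w]) (lastN (ll k) (z ++ [w])) ≤
          SSN (kil x) (ll k) (nv x) (kk k) (t k) (z ++ [v]) (lastN (ll k) (z ++ [v]))) := by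
  rw [gd, decide_eq_true_eq]
  cases cp
  · simp only [Bool.false_eq_true, if_false, false_implies, true_and, forall_true_left, ext_ze]
    refine forall_congr' fun w => forall_congr' fun _ => ?_
    rw [leB_iff kk ll t x k hl1 ht1, FC_false kk ll t x k hl1 ht1, FC_false kk ll t x k hl1 ht1]
  · simp only [if_true, forall_true_left, ext_ze, Bool.true_eq_false, false_implies, and_true]
    refine forall_congr' fun w => forall_congr' fun _ => ?_
    rw [leB_iff kk ll t x k hl1 ht1, FC_true kk ll t x k hl1 ht1, FC_true kk ll t x k hl1 ht1]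
    have hN : 0 < nv x ^ ll k := Nat.pow_pos (Nat.succ_pos _)
    rw [Nat.mul_le_mul_left_iff hN, Nat.pow_le_pow_iff_left (by omega)]

theorem gd_exists (cp : Bool) (z : List ℕ) :
    ∃ v < nv x, gd (FC kk ll t) x k (LC kk ll t x k) (nv x) cp (ze z) v = true := by
  have hne : (Finset.range (nv x)).Nonempty := ⟨0, Finset.mem_range.2 (Nat.succ_pos _)⟩
  cases cp
  · obtain ⟨v, hv, hmax⟩ := Finset.exists_max_image (Finset.range (nv x)) (fun w =>
      SSN (kil x) (ll k) (nv x) (kk k) (t k) (z ++ [w]) (lastN (ll k) (z ++ [w]))) hne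
    exact ⟨v, Finset.mem_range.1 hv, (gd_iff kk ll t x k hl1 ht1 false z v).2
      ⟨fun h => by simp at h, fun _ w hw => hmax w (Finset.mem_range.2 hw)⟩⟩
  · obtain ⟨v, hv, hmin⟩ := Finset.exists_min_image (Finset.range (nv x)) (fun w =>
      surv x (ll k) (kk k) (z ++ [w])) hne
    exact ⟨v, Finset.mem_range.1 hv, (gd_iff kk ll t x k hl1 ht1 true z v).2
      ⟨fun _ w hw => hmin w (Finset.mem_range.2 hw), fun h => by simp at h⟩⟩

end

/-- the list of the tests after `i` steps -/
noncomputable def ZZ (kk ll t : ℕ → ℕ) (x : Str) (k : ℕ) : ℕ → List ℕ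
  | 0 => []
  | i + 1 => ZZ kk ll t x k i ++ [bst (nv x) (gd (FC kk ll t) x k (LC kk ll t x k) (nv x)
      (decide (((ZZ kk ll t x k i).length + 1) % ll k = 0)) (ze (ZZ kk ll t x k i)))]

theorem stC_eq (kk ll t : ℕ → ℕ) (x : Str) (k i : ℕ) :
    (stC (FC kk ll t) x k (ll k) (LC kk ll t x k))^[i] [] = ze (ZZ kk ll t x k i) := by
  induction i with
  | zero => rfl
  | succ i ih =>
    rw [Function.iterate_succ_apply', ih, stC, llen_ze, ext_ze]
    rfl

theorem mainC (kk ll t : ℕ → ℕ) (c : ℕ) (hkk : Computable kk) (hll : Computable ll)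
    (ht : Computable t) (hl1 : ∀ k, 1 ≤ ll k) (ht1 : ∀ k, 1 ≤ t k) (hc : ∀ k, ll k ≤ c * t k) :
    ∃ F ∈ SharpW2, FptTuring F (fun x k => CDS x (kk k) (ll k))
      (fun x k => ¬ CDS x (t k * kk k) (ll k)) := by
  have hon : ∀ {f : ℕ → ℕ}, Computable f → Computable (fun k => on1 (f k)) := fun hf =>
    Pool.Agent.Lib.Pf91712p.computable_on1.comp hf
  have hpr : ∀ {f g : ℕ → Str}, Computable f → Computable g → Computable (fun k => pr (f k) (g k)) :=
    fun hf hg => Pool.Agent.Lib.Pf91712p.PosAAux.primrec_pr.to_comp.comp hf hg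
  have hsub : ∀ {f : ℕ → ℕ}, Computable f → Computable (fun k => f k - 1) := fun hf =>
    Primrec.pred.to_comp.comp hf
  have hadvC : Computable (advC kk ll t) := hpr (hon hkk) (hpr (hon (hsub hll)) (hon (hsub ht)))
  have hadvT : Computable (advT kk ll t) :=
    hpr (hon Computable.id) (hpr (hon hkk) (hpr (hon hll) (hon ht)))
  have hκ : Computable (fun k => ll k + t k * kk k) :=
    Primrec.nat_add.to_comp.comp hll (Primrec.nat_mul.to_comp.comp ht hkk)
  refine ⟨FC kk ll t, ⟨fun k => ll k + t k * kk k, advC kk ll t, RC, hκ, hadvC, RC_mem,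
    fun x k => rfl⟩, ?_⟩
  obtain ⟨M, p, hM⟩ := progC (FC kk ll t) kk ll t c hl1
  refine ⟨M, p, fun k => k, advT kk ll t, Computable.id, hadvT, fun x k => ⟨(hM x k).1, ?_⟩⟩
  rw [(hM x k).2, stC_eq]
  have hb : ∀ i, bst (nv x) (gd (FC kk ll t) x k (LC kk ll t x k) (nv x)
      (decide (((ZZ kk ll t x k i).length + 1) % ll k = 0)) (ze (ZZ kk ll t x k i))) < nv x ∧
      gd (FC kk ll t) x k (LC kk ll t x k) (nv x)
      (decide (((ZZ kk ll t x k i).length + 1) % ll k = 0)) (ze (ZZ kk ll t x k i))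
      (bst (nv x) (gd (FC kk ll t) x k (LC kk ll t x k) (nv x)
      (decide (((ZZ kk ll t x k i).length + 1) % ll k = 0)) (ze (ZZ kk ll t x k i)))) = true :=
    fun i => bst_spec _ _ (gd_exists kk ll t x k (hl1 k) (ht1 k) _ _)
  have hZ : ∀ i, ∀ a ∈ ZZ kk ll t x k i, a < nv x := by
    intro i
    induction i with
    | zero => intro a ha; simp [ZZ] at ha
    | succ i ih =>
      intro a ha
      rw [ZZ, List.mem_append, List.mem_singleton] at ha
      rcases ha with ha | rfl
      · exact ih a ha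
      · exact (hb i).1
  have hout : outC (FC kk ll t) x k (LC kk ll t x k) (ze (ZZ kk ll t x k (WC kk ll c x k))) = true ↔
      1 ≤ surv x (ll k) (kk k) (ZZ kk ll t x k (WC kk ll c x k)) := by
    rw [outC, decide_eq_true_eq]
    have h1 := pos_bits _ _ (FC_lt kk ll t x k (hl1 k) (ht1 k) true
      (ZZ kk ll t x k (WC kk ll c x k)))
    have h2 : (∃ i < LC kk ll t x k, bt (FC kk ll t) x k true
        (ze (ZZ kk ll t x k (WC kk ll c x k))) i = true) ↔ ∃ i < LC kk ll t x k,
        (FC kk ll t (pr x (true :: ze (ZZ kk ll t x k (WC kk ll c x k)))) k).testBit i = true := by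
      refine exists_congr fun i => and_congr_right fun _ => ?_
      rw [bt_eq]
    rw [h2, ← h1, FC_true kk ll t x k (hl1 k) (ht1 k)]
    have hN : 0 < nv x ^ ll k := Nat.pow_pos (Nat.succ_pos _)
    constructor
    · intro h
      by_contra h0
      have h3 : surv x (ll k) (kk k) (ZZ kk ll t x k (WC kk ll c x k)) = 0 := by omega
      rw [h3, Nat.zero_pow (ht1 k), Nat.mul_zero] at h
      omega
    · intro h
      exact Nat.mul_pos hN (Nat.pow_pos h)
  constructor
  · intro hy
    rw [hout, Nat.one_le_iff_ne_zero, surv, Finset.card_ne_zero]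
    obtain ⟨u, hu, huy⟩ := yes_tup x (kk k) (ll k) hy
    refine ⟨u, Finset.mem_filter.2 ⟨hu, ?_⟩⟩
    rw [inYN, decide_eq_true_eq]
    intro i hi
    refine huy _ (mem_tup.2 ⟨?_, ?_⟩)
    · have h1 := (Nat.le_div_iff_mul_le (hl1 k)).1 (Nat.succ_le_of_lt hi)
      rw [List.length_take, List.length_drop]
      have h2 : i.succ * ll k = i * ll k + ll k := by rw [Nat.succ_mul]
      rw [h2] at h1
      omega
    · intro a ha
      exact hZ _ a (List.mem_of_mem_drop (List.mem_of_mem_take ha))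
  · intro hn
    have h0 : ∀ u ∈ tup (kk k) (nv x), inYN (kil x) (ll k)
        (ZZ kk ll t x k (WC kk ll c x k)) u = false := by
      refine greedyN (kil x) (ll k) (nv x) (kk k) (t k) (nv x ^ c) (WC kk ll c x k) (hl1 k)
        (Nat.succ_pos _) (ht1 k) (Nat.one_le_pow _ _ (Nat.succ_pos _)) ?_ (ZZ kk ll t x k) rfl
        (fun i => ?_) le_rfl (fun us hus hu => no_tup x (kk k) (t k) (ll k) hn us hus hu)
      · rw [← pow_mul]
        exact Nat.pow_le_pow_right (Nat.succ_pos _) (hc k)
      · refine ⟨_, (hb i).1, rfl, ?_⟩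
        have hg := (gd_iff kk ll t x k (hl1 k) (ht1 k) _ _ _).1 (hb i).2
        refine next_spec x (ll k) (kk k) (t k) (hl1 k) (ht1 k) _ (hZ i) _ (hb i).1 ?_ ?_
        · intro h
          exact hg.1 (by rw [decide_eq_true_eq]; exact h)
        · intro h
          exact hg.2 (by rw [decide_eq_false_iff_not]; exact h)
    by_contra hne
    rw [Bool.not_eq_false] at hne
    have h1 := hout.1 hne
    rw [surv, Nat.one_le_iff_ne_zero, Finset.card_ne_zero] at h1
    obtain ⟨u, hu⟩ := h1
    rw [Finset.mem_filter] at hu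
    rw [h0 u hu.1] at hu
    simp at hu

end Pool.Agent.Lib.Pf91712c
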