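import Pool.Agent.Lib.Pf91712c.Tup

/-!
The meaning of the formula for an assignment which comes from a tuple.

PLAN. With `N = nv x ≥ 1`, `w ∈ tup (l + t * kk) N` the set `so N w` has exactly one element `m` with
`m / N = β`, namely `β * N + w_β`, and `m % N = w_β`. Unfold `Sat`, `compat`, `kil`, `clq`, `inYN`;
`(w.take l).getD b 0 = w.getD b 0` for `b < l`, `((w.drop (l + j * kk)).take kk).getD a 0 =
w.getD (l + j * kk + a) 0` for `a < kk`; a block `β` with `l ≤ β < l + t * kk` is `l + j * kk + a` with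
`j < t`, `a < kk`. `adj x u v = adj x v u`. `(lastN l z).length < l`.
-/

set_option autoImplicit false

namespace Pool.Agent.Lib.Pf91712c

open Pool.Agent.Lib.Pa76659 (Str)

namespace SatI

theorem getD_take (w : List ℕ) {n b : ℕ} (h : b < n) : (w.take n).getD b 0 = w.getD b 0 := by
  simp [List.getD, h]

theorem getD_drop_take (w : List ℕ) (s : ℕ) {k a : ℕ} (h : a < k) :
    ((w.drop s).take k).getD a 0 = w.getD (s + a) 0 := by
  simp [List.getD, List.getElem?_drop, h]

theorem getD_lt {w : List ℕ} {N : ℕ} (hw : ∀ a ∈ w, a < N) {β : ℕ} (h : β < w.length) :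
    w.getD β 0 < N := by
  rw [List.getD_eq_getElem _ _ h]
  exact hw _ (List.getElem_mem h)

theorem mem_so {N : ℕ} {w : List ℕ} {m : ℕ} :
    m ∈ so N w ↔ ∃ β < w.length, β * N + w.getD β 0 = m := by
  unfold so
  rw [Finset.mem_image]
  constructor
  · rintro ⟨β, hβ, h⟩
    exact ⟨β, Finset.mem_range.1 hβ, h⟩
  · rintro ⟨β, hβ, h⟩
    exact ⟨β, Finset.mem_range.2 hβ, h⟩

theorem so_div {N v β : ℕ} (hN : 0 < N) (hv : v < N) : (β * N + v) / N = β := by
  rw [Nat.add_comm, Nat.add_mul_div_right _ _ hN, Nat.div_eq_of_lt hv, Nat.zero_add]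

theorem so_mod {N v β : ℕ} (hv : v < N) : (β * N + v) % N = v := by
  rw [Nat.add_comm, Nat.add_mul_mod_self_right, Nat.mod_eq_of_lt hv]

/-- a statement about the member of `so N w` in a block -/
theorem ex_so {N : ℕ} {w : List ℕ} (hN : 0 < N) (hw : ∀ a ∈ w, a < N) {β : ℕ} (hβ : β < w.length)
    (P : ℕ → Prop) : (∃ m ∈ so N w, m / N = β ∧ P (m % N)) ↔ P (w.getD β 0) := by
  constructor
  · rintro ⟨m, hm, hd, hP⟩
    obtain ⟨β', hβ', rfl⟩ := mem_so.1 hm
    rw [so_div hN (getD_lt hw hβ')] at hd
    rw [so_mod (getD_lt hw hβ'), hd] at hP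
    exact hP
  · intro hP
    refine ⟨β * N + w.getD β 0, mem_so.2 ⟨β, hβ, rfl⟩, so_div hN (getD_lt hw hβ), ?_⟩
    rw [so_mod (getD_lt hw hβ)]
    exact hP

theorem take_eq_iff (w y : List ℕ) (h : y.length ≤ w.length) :
    w.take y.length = y ↔ ∀ β < y.length, w.getD β 0 = y.getD β 0 := by
  constructor
  · intro he β hβ
    rw [← getD_take w hβ, he]
  · intro he
    apply List.ext_getElem
    · rw [List.length_take]; omega
    · intro i h1 h2
      have h3 := he i h2
      rw [List.getD_eq_getElem _ _ h2, List.getD_eq_getElem _ _ (lt_of_lt_of_le h2 h)] at h3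
      rw [List.getElem_take]
      exact h3

theorem part1 (x : Str) (kk l t : ℕ) (md : Bool) (z w : List ℕ) (hl : 1 ≤ l)
    (hlen : w.length = l + t * kk) (hwN : ∀ a ∈ w, a < nv x) :
    (∀ β < l + t * kk, ∃ m ∈ so (nv x) w, m / nv x = β ∧
      (md = false → β < (lastN l z).length → m % nv x = (lastN l z).getD β 0)) ↔
      (md = false → w.take (lastN l z).length = lastN l z) := by
  have hN : 0 < nv x := Nat.succ_pos _
  have hlast : (lastN l z).length < l := by
    unfold lastN
    rw [List.length_drop]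
    have h1 := Nat.mod_add_div z.length l
    have h2 := Nat.mod_lt z.length hl
    have h3 : z.length / l * l = l * (z.length / l) := Nat.mul_comm _ _
    omega
  have hle : (lastN l z).length ≤ w.length := by omega
  constructor
  · intro h hmd
    rw [take_eq_iff _ _ hle]
    intro β hβ
    have h1 := h β (by omega)
    rw [ex_so hN hwN (by omega) (fun v => md = false → β < (lastN l z).length →
      v = (lastN l z).getD β 0)] at h1
    exact h1 hmd hβ
  · intro h β hβ
    rw [ex_so hN hwN (by omega) (fun v => md = false → β < (lastN l z).length →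
      v = (lastN l z).getD β 0)]
    intro hmd hβ'
    exact (take_eq_iff _ _ hle).1 (h hmd) β hβ'

theorem adj_comm (x : Str) (u v : ℕ) : adj x u v = adj x v u := by
  unfold adj
  rw [Bool.or_comm]
  congr 2
  exact decide_eq_decide.2 eq_comm

theorem part2 (x : Str) (kk l t : ℕ) (md : Bool) (w : List ℕ)
    (hlen : w.length = l + t * kk) (hwN : ∀ a ∈ w, a < nv x) :
    (md = false → ∀ m0 ∈ so (nv x) w, ∀ β1 < l + t * kk, ∃ m1 ∈ so (nv x) w, m1 / nv x = β1 ∧
      compat x l (m0 / nv x) (m0 % nv x) β1 (m1 % nv x) = true) ↔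
      (md = false → clq x (w.take l) = true ∧ ∀ j < t, ∀ a < kk, ∀ b < l,
        dom x (((w.drop (l + j * kk)).take kk).getD a 0) ((w.take l).getD b 0) = false) := by
  have hN : 0 < nv x := Nat.succ_pos _
  have hcomp : ∀ β0 v0 β1 v1, compat x l β0 v0 β1 v1 = true ↔
      ((β0 < l → β1 < l → β0 ≠ β1 → adj x v0 v1 = true) ∧
        (l ≤ β0 → β1 < l → dom x v0 v1 = false)) := by
    intro β0 v0 β1 v1
    unfold compat
    rw [Bool.and_eq_true, Bool.or_eq_true, Bool.or_eq_true, Bool.not_eq_true', Bool.not_eq_true',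
      Bool.not_eq_true']
    by_cases h1 : β0 < l <;> by_cases h2 : β1 < l <;> by_cases h3 : β0 = β1 <;>
      simp [h1, h2, h3, Nat.not_le.2, Nat.not_lt.1]
  have hall : (∀ m0 ∈ so (nv x) w, ∀ β1 < l + t * kk, ∃ m1 ∈ so (nv x) w, m1 / nv x = β1 ∧
      compat x l (m0 / nv x) (m0 % nv x) β1 (m1 % nv x) = true) ↔
      ∀ β0 < l + t * kk, ∀ β1 < l + t * kk,
        compat x l β0 (w.getD β0 0) β1 (w.getD β1 0) = true := by
    constructor
    · intro h β0 h0 β1 h1
      have h2 := h (β0 * nv x + w.getD β0 0) (mem_so.2 ⟨β0, by omega, rfl⟩) β1 h1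
      rw [so_div hN (getD_lt hwN (by omega)), so_mod (getD_lt hwN (by omega)),
        ex_so hN hwN (by omega) (fun v => compat x l β0 (w.getD β0 0) β1 v = true)] at h2
      exact h2
    · intro h m0 hm0 β1 h1
      obtain ⟨β0, h0, rfl⟩ := mem_so.1 hm0
      rw [so_div hN (getD_lt hwN h0), so_mod (getD_lt hwN h0),
        ex_so hN hwN (by omega) (fun v => compat x l β0 (w.getD β0 0) β1 v = true)]
      exact h β0 (by omega) β1 h1
  refine imp_congr_right fun _ => ?_
  rw [hall]
  have hlt : (w.take l).length = l := by rw [List.length_take]; omega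
  constructor
  · intro h
    refine ⟨?_, ?_⟩
    · unfold clq
      rw [decide_eq_true_eq, hlt]
      intro b hb b' hb' hne
      rw [getD_take w hb, getD_take w hb']
      exact ((hcomp _ _ _ _).1 (h b (by omega) b' (by omega))).1 hb hb' hne
    · intro j hj a ha b hb
      rw [getD_take w hb, getD_drop_take w _ ha]
      have h1 : l + j * kk + a < l + t * kk := by
        have : (j + 1) * kk ≤ t * kk := Nat.mul_le_mul_right _ hj
        rw [Nat.add_mul, Nat.one_mul] at this
        omega
      exact ((hcomp _ _ _ _).1 (h (l + j * kk + a) h1 b (by omega))).2 (by omega) hb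
  · rintro ⟨h1, h2⟩ β0 h0 β1 h3
    rw [hcomp]
    refine ⟨fun hβ0 hβ1 hne => ?_, fun hβ0 hβ1 => ?_⟩
    · unfold clq at h1
      rw [decide_eq_true_eq, hlt] at h1
      have h4 := h1 β0 hβ0 β1 hβ1 hne
      rwa [getD_take w hβ0, getD_take w hβ1] at h4
    · have hkk : 0 < kk := by
        rcases Nat.eq_zero_or_pos kk with h | h
        · rw [h, Nat.mul_zero] at h0; omega
        · exact h
      have hj : (β0 - l) / kk < t := (Nat.div_lt_iff_lt_mul hkk).2 (by omega)
      have ha : (β0 - l) % kk < kk := Nat.mod_lt _ hkk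
      have h4 := h2 _ hj _ ha β1 hβ1
      rw [getD_take w hβ1, getD_drop_take w _ ha] at h4
      have e : l + (β0 - l) / kk * kk + (β0 - l) % kk = β0 := by
        have := Nat.div_add_mod' (β0 - l) kk
        omega
      rwa [e] at h4

theorem part3 (x : Str) (kk l t : ℕ) (z w : List ℕ)
    (hlen : w.length = l + t * kk) (hwN : ∀ a ∈ w, a < nv x) :
    (∀ i < z.length / l, clq x ((z.drop (i * l)).take l) = true → ∀ j < t,
      ∃ m ∈ so (nv x) w, l + j * kk ≤ m / nv x ∧ m / nv x < l + (j + 1) * kk ∧
        ∃ b < l, dom x (m % nv x) (((z.drop (i * l)).take l).getD b 0) = true) ↔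
      ∀ j < t, inYN (kil x) l z ((w.drop (l + j * kk)).take kk) = true := by
  have hN : 0 < nv x := Nat.succ_pos _
  have hu : ∀ j < t, ((w.drop (l + j * kk)).take kk).length = kk := by
    intro j hj
    have : (j + 1) * kk ≤ t * kk := Nat.mul_le_mul_right _ hj
    rw [Nat.add_mul, Nat.one_mul] at this
    rw [List.length_take, List.length_drop]
    omega
  have hz : ∀ i < z.length / l, ((z.drop (i * l)).take l).length = l := by
    intro i hi
    have h1 : (i + 1) * l ≤ z.length / l * l := Nat.mul_le_mul_right _ hi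
    have h2 := Nat.div_mul_le_self z.length l
    rw [Nat.add_mul, Nat.one_mul] at h1
    rw [List.length_take, List.length_drop]
    omega
  have hk : ∀ j < t, ∀ i < z.length / l,
      (kil x ((w.drop (l + j * kk)).take kk) ((z.drop (i * l)).take l) = false ↔
        (clq x ((z.drop (i * l)).take l) = true → ∃ m ∈ so (nv x) w, l + j * kk ≤ m / nv x ∧
          m / nv x < l + (j + 1) * kk ∧
          ∃ b < l, dom x (m % nv x) (((z.drop (i * l)).take l).getD b 0) = true)) := by
    intro j hj i hi
    unfold kil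
    rw [Bool.and_eq_false_iff, decide_eq_false_iff_not, hu j hj, hz i hi]
    have hjt : (j + 1) * kk ≤ t * kk := Nat.mul_le_mul_right _ hj
    have hj1 : (j + 1) * kk = j * kk + kk := by ring
    have hex : (¬ ∀ a < kk, ∀ b < l, dom x (((w.drop (l + j * kk)).take kk).getD a 0)
        (((z.drop (i * l)).take l).getD b 0) = false) ↔
        ∃ m ∈ so (nv x) w, l + j * kk ≤ m / nv x ∧ m / nv x < l + (j + 1) * kk ∧
          ∃ b < l, dom x (m % nv x) (((z.drop (i * l)).take l).getD b 0) = true := by
      constructor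
      · intro h
        push Not at h
        obtain ⟨a, ha, b, hb, hd⟩ := h
        rw [getD_drop_take w _ ha] at hd
        have hβ : l + j * kk + a < w.length := by omega
        refine ⟨(l + j * kk + a) * nv x + w.getD (l + j * kk + a) 0, mem_so.2 ⟨_, hβ, rfl⟩, ?_⟩
        rw [so_div hN (getD_lt hwN hβ), so_mod (getD_lt hwN hβ)]
        exact ⟨by omega, by omega, b, hb, by simpa using hd⟩
      · rintro ⟨m, hm, h1, h2, b, hb, hd⟩ h
        obtain ⟨β, hβ, rfl⟩ := mem_so.1 hm
        rw [so_div hN (getD_lt hwN hβ)] at h1 h2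
        rw [so_mod (getD_lt hwN hβ)] at hd
        have h3 := h (β - (l + j * kk)) (by omega) b hb
        rw [getD_drop_take w _ (by omega)] at h3
        have e : l + j * kk + (β - (l + j * kk)) = β := by omega
        rw [e, hd] at h3
        exact absurd h3 (by simp)
    rw [← hex]
    constructor
    · rintro (h | h) hc
      · rw [hc] at h; exact absurd h (by simp)
      · exact h
    · intro h
      rcases hc : clq x ((z.drop (i * l)).take l) with _ | _
      · exact Or.inl rfl
      · exact Or.inr (h hc)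
  constructor
  · intro h j hj
    unfold inYN
    rw [decide_eq_true_eq]
    intro i hi
    exact (hk j hj i hi).2 (fun hc => h i hi hc j hj)
  · intro h i hi hc j hj
    have h1 := h j hj
    unfold inYN at h1
    rw [decide_eq_true_eq] at h1
    exact (hk j hj i hi).1 (h1 i hi) hc

end SatI

open SatI

theorem sat_iff (x : Str) (kk l t : ℕ) (md : Bool) (z w : List ℕ) (hl : 1 ≤ l)
    (hw : w ∈ tup (l + t * kk) (nv x)) :
    Sat x kk l t md z (so (nv x) w) ↔
      (md = false → w.take (lastN l z).length = lastN l z) ∧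
      (md = false → clq x (w.take l) = true) ∧
      ∀ j < t, inYN (kil x) l z ((w.drop (l + j * kk)).take kk) = true ∧
        (md = false → ∀ a < kk, ∀ b < l,
          dom x (((w.drop (l + j * kk)).take kk).getD a 0) ((w.take l).getD b 0) = false) := by
  obtain ⟨hlen, hwN⟩ := mem_tup.1 hw
  unfold Sat
  rw [part1 x kk l t md z w hl hlen hwN, part2 x kk l t md w hlen hwN, part3 x kk l t z w hlen hwN]
  constructor
  · rintro ⟨a, b, c⟩
    exact ⟨a, fun h => (b h).1, fun j hj => ⟨c j hj, fun h => (b h).2 j hj⟩⟩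
  · rintro ⟨a, b, c⟩
    exact ⟨a, fun h => ⟨b h, fun j hj => (c j hj).2 h⟩, fun j hj => (c j hj).1⟩

end Pool.Agent.Lib.Pf91712c
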