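import Pool.Agent.Lib.Pf91712c.Defs

/-!
Tuples, blocks.
-/

set_option autoImplicit false

namespace Pool.Agent.Lib.Pf91712c

theorem mem_tup {n N : ℕ} {w : List ℕ} : w ∈ tup n N ↔ w.length = n ∧ ∀ a ∈ w, a < N := by
  unfold tup
  simp only [Finset.mem_image, Fintype.mem_piFinset, Finset.mem_range]
  constructor
  · rintro ⟨f, hf, rfl⟩
    refine ⟨List.length_ofFn, ?_⟩
    rw [List.forall_mem_ofFn_iff]
    exact hf
  · rintro ⟨h, hw⟩
    subst h
    exact ⟨w.get, fun i => hw _ (List.get_mem w i), List.ofFn_get w⟩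

theorem card_tup (n N : ℕ) : (tup n N).card = N ^ n := by
  unfold tup
  rw [Finset.card_image_of_injective _ List.ofFn_injective, Fintype.card_piFinset]
  simp

theorem split_tup (n m N : ℕ) (P : List ℕ → Prop) [DecidablePred P] :
    ((tup (n + m) N).filter P).card =
      ∑ y ∈ tup n N, ((tup m N).filter (fun s => P (y ++ s))).card := by
  rw [Finset.card_eq_sum_card_fiberwise (f := List.take n) (t := tup n N)]
  · refine Finset.sum_congr rfl fun v hv => ?_
    symm
    rw [mem_tup] at hv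
    refine Finset.card_bij (fun s _ => v ++ s) ?_ ?_ ?_
    · intro s hs
      simp only [Finset.mem_filter, mem_tup] at hs ⊢
      refine ⟨⟨⟨by simp [hv.1, hs.1.1], ?_⟩, hs.2⟩, ?_⟩
      · intro a ha
        rcases List.mem_append.1 ha with ha | ha
        · exact hv.2 a ha
        · exact hs.1.2 a ha
      · rw [← hv.1]
        simp
    · intro s _ s' _ h
      exact List.append_cancel_left h
    · intro r hr
      simp only [Finset.mem_filter, mem_tup] at hr
      refine ⟨r.drop n, ?_, ?_⟩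
      · simp only [Finset.mem_filter, mem_tup, List.length_drop]
        refine ⟨⟨by omega, fun a ha => hr.1.1.2 a (List.mem_of_mem_drop ha)⟩, ?_⟩
        rw [← hr.2, List.take_append_drop]
        exact hr.1.2
      · rw [← hr.2, List.take_append_drop]
  · intro r hr
    have h1 := (Finset.mem_filter.1 hr).1
    rw [mem_tup] at h1
    show List.take n r ∈ tup n N
    rw [mem_tup, List.length_take]
    exact ⟨by omega, fun a ha => h1.2 a (List.mem_of_mem_take ha)⟩

theorem blocks_succ (kk t : ℕ) (C : List ℕ → Prop) (y s : List ℕ) (hy : y.length = kk) :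
    (∀ j < t + 1, C (((y ++ s).drop (j * kk)).take kk)) ↔
      (C y ∧ ∀ j < t, C ((s.drop (j * kk)).take kk)) := by
  have hd : ∀ j : ℕ, (y ++ s).drop ((j + 1) * kk) = s.drop (j * kk) := by
    intro j
    rw [List.drop_append]
    have h1 : y.drop ((j + 1) * kk) = [] := by
      apply List.drop_eq_nil_of_le
      rw [hy, Nat.add_mul]
      omega
    have h2 : (j + 1) * kk - y.length = j * kk := by
      rw [hy, Nat.add_mul]
      omega
    rw [h1, h2]
    rfl
  have h0 : ((y ++ s).drop (0 * kk)).take kk = y := by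
    rw [Nat.zero_mul, List.drop_zero, ← hy]
    simp
  constructor
  · intro h
    refine ⟨?_, ?_⟩
    · have := h 0 (Nat.succ_pos t)
      rwa [h0] at this
    · intro j hj
      have := h (j + 1) (Nat.succ_lt_succ hj)
      rwa [hd j] at this
  · rintro ⟨h1, h2⟩ j hj
    cases j with
    | zero => rw [h0]; exact h1
    | succ j => rw [hd j]; exact h2 j (Nat.lt_of_succ_lt_succ hj)

theorem cnt_prod (kk t N : ℕ) (C : List ℕ → Prop) [DecidablePred C] :
    ((tup (t * kk) N).filter (fun w => ∀ j < t, C ((w.drop (j * kk)).take kk))).card =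
      ((tup kk N).filter C).card ^ t := by
  induction t with
  | zero =>
    rw [pow_zero, Nat.zero_mul]
    rw [Finset.filter_true_of_mem (fun w _ j hj => absurd hj (Nat.not_lt_zero j)), card_tup,
      pow_zero]
  | succ t ih =>
    have e : (t + 1) * kk = kk + t * kk := by ring
    rw [e, split_tup]
    have : ∀ v ∈ tup kk N, ((tup (t * kk) N).filter
        (fun s => ∀ j < t + 1, C (((v ++ s).drop (j * kk)).take kk))).card =
        if C v then ((tup kk N).filter C).card ^ t else 0 := by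
      intro v hv
      rw [mem_tup] at hv
      split_ifs with hC
      · rw [← ih]
        congr 1
        apply Finset.filter_congr
        intro s _
        rw [blocks_succ kk t C v s hv.1]
        simp [hC]
      · rw [Finset.card_eq_zero, Finset.filter_eq_empty_iff]
        intro s _
        rw [blocks_succ kk t C v s hv.1]
        simp [hC]
    rw [Finset.sum_congr rfl this, ← Finset.sum_filter, Finset.sum_const, smul_eq_mul, pow_succ]
    ring

/-- the set of variables of the tuple `w` -/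
def so (N : ℕ) (w : List ℕ) : Finset ℕ := (Finset.range w.length).image (fun β => β * N + w.getD β 0)

theorem mem_so {N : ℕ} {w : List ℕ} {m : ℕ} :
    m ∈ so N w ↔ ∃ β < w.length, β * N + w.getD β 0 = m := by
  unfold so
  simp only [Finset.mem_image, Finset.mem_range]

theorem getD_lt {B N : ℕ} {w : List ℕ} (hw : w ∈ tup B N) {β : ℕ} (hβ : β < B) :
    w.getD β 0 < N := by
  rw [mem_tup] at hw
  rw [List.getD_eq_getElem _ _ (by omega)]
  exact hw.2 _ (List.getElem_mem _)

theorem div_eq' {N β v : ℕ} (hv : v < N) : (β * N + v) / N = β := by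
  rw [Nat.add_comm, Nat.add_mul_div_right _ _ (by omega), Nat.div_eq_of_lt hv, Nat.zero_add]

theorem mod_eq' {N β v : ℕ} (hv : v < N) : (β * N + v) % N = v := by
  rw [Nat.add_comm, Nat.add_mul_mod_self_right, Nat.mod_eq_of_lt hv]

theorem so_spec {B N : ℕ} {w : List ℕ} (hw : w ∈ tup B N) :
    so N w ⊆ Finset.range (B * N) ∧ (so N w).card = B ∧ ∀ β < B, ∃ m ∈ so N w, m / N = β := by
  have hl : w.length = B := (mem_tup.1 hw).1
  refine ⟨?_, ?_, ?_⟩
  · intro m hm
    obtain ⟨β, hβ, rfl⟩ := mem_so.1 hm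
    rw [hl] at hβ
    have h1 := getD_lt hw hβ
    have h2 : (β + 1) * N ≤ B * N := Nat.mul_le_mul_right N hβ
    rw [Nat.add_mul, Nat.one_mul] at h2
    rw [Finset.mem_range]
    omega
  · unfold so
    rw [Finset.card_image_of_injOn, Finset.card_range, hl]
    intro β hβ β' hβ' h
    simp only [Finset.coe_range, Set.mem_Iio, hl] at hβ hβ'
    have h1 := congrArg (· / N) h
    simp only at h1
    rwa [div_eq' (getD_lt hw hβ), div_eq' (getD_lt hw hβ')] at h1
  · intro β hβ
    exact ⟨β * N + w.getD β 0, mem_so.2 ⟨β, by omega, rfl⟩, div_eq' (getD_lt hw hβ)⟩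

theorem so_inj {B N : ℕ} {w w' : List ℕ} (hw : w ∈ tup B N) (hw' : w' ∈ tup B N)
    (h : so N w = so N w') : w = w' := by
  have hl : w.length = B := (mem_tup.1 hw).1
  have hl' : w'.length = B := (mem_tup.1 hw').1
  apply List.ext_getElem (hl.trans hl'.symm)
  intro β h1 h2
  have h3 : β * N + w.getD β 0 ∈ so N w' := h ▸ mem_so.2 ⟨β, h1, rfl⟩
  obtain ⟨β', hβ', e⟩ := mem_so.1 h3
  have hb : β < B := by omega
  have hb' : β' < B := by omega
  have e1 : (β' * N + w'.getD β' 0) / N = (β * N + w.getD β 0) / N := by rw [e]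
  rw [div_eq' (getD_lt hw hb), div_eq' (getD_lt hw' hb')] at e1
  subst e1
  have e2 : (β' * N + w'.getD β' 0) % N = (β' * N + w.getD β' 0) % N := by rw [e]
  rw [mod_eq' (getD_lt hw hb), mod_eq' (getD_lt hw' hb)] at e2
  rw [List.getD_eq_getElem _ _ h1, List.getD_eq_getElem _ _ h2] at e2
  exact e2.symm

theorem so_surj {B N : ℕ} (hN : 1 ≤ N) {S : Finset ℕ} (hc : S.card = B)
    (hS : ∀ β < B, ∃ m ∈ S, m / N = β) : ∃ w ∈ tup B N, so N w = S := by
  have hS' : ∀ β : Fin B, ∃ m ∈ S, m / N = (β : ℕ) := fun β => hS β β.2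
  choose f hf hf' using hS'
  have hw : List.ofFn (fun β : Fin B => f β % N) ∈ tup B N := by
    rw [mem_tup]
    refine ⟨List.length_ofFn, ?_⟩
    rw [List.forall_mem_ofFn_iff]
    intro β
    exact Nat.mod_lt _ hN
  refine ⟨List.ofFn (fun β : Fin B => f β % N), hw, ?_⟩
  apply Finset.eq_of_subset_of_card_le
  · intro m hm
    obtain ⟨β, hβ, rfl⟩ := mem_so.1 hm
    have hβ2 : β < B := by simpa using hβ
    rw [List.getD_eq_getElem _ _ hβ, List.getElem_ofFn]
    have e : β * N + f ⟨β, hβ2⟩ % N = f ⟨β, hβ2⟩ := by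
      have h1 := hf' ⟨β, hβ2⟩
      have h2 := Nat.div_add_mod' (f ⟨β, hβ2⟩) N
      rw [h1] at h2
      exact h2
    rw [e]
    exact hf _
  · rw [(so_spec hw).2.1, hc]

theorem card_blocks (B N : ℕ) (hN : 1 ≤ N) (P : Finset ℕ → Prop) :
    Nat.card {S : Finset ℕ // S ⊆ Finset.range (B * N) ∧ S.card = B ∧
      (∀ β < B, ∃ m ∈ S, m / N = β) ∧ P S} =
      Nat.card {w : List ℕ // w ∈ tup B N ∧ P (so N w)} := by
  symm
  refine Nat.card_eq_of_bijective
    (fun w : {w : List ℕ // w ∈ tup B N ∧ P (so N w)} =>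
      (⟨so N w.1, (so_spec w.2.1).1, (so_spec w.2.1).2.1, (so_spec w.2.1).2.2, w.2.2⟩ :
        {S : Finset ℕ // S ⊆ Finset.range (B * N) ∧ S.card = B ∧
          (∀ β < B, ∃ m ∈ S, m / N = β) ∧ P S})) ⟨?_, ?_⟩
  · intro w w' h
    apply Subtype.ext
    exact so_inj w.2.1 w'.2.1 (congrArg Subtype.val h)
  · rintro ⟨S, h1, h2, h3, h4⟩
    obtain ⟨w, hw, rfl⟩ := so_surj hN h2 h3
    exact ⟨⟨w, hw, h4⟩, rfl⟩

end Pool.Agent.Lib.Pf91712c
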